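import Pool.Agent.FKC.MN

/-! Bookkeeping: the family of partial functionals from two orbit representatives. -/

namespace Pool.Agent.FKC

open Pool.Agent.H71.FK

set_option linter.unusedSectionVars false

variable {V : Type} [DecidableEq V]

/-- span of the star elements of length `k` -/
noncomputable def StL (o : V) (k : ℕ) : Submodule ℚ (E V) :=
  Submodule.span ℚ {m | ∃ Y : List V, Y.length = k ∧ (∀ y ∈ Y, y ≠ o) ∧ mn o Y = m}

theorem mn_mem_StL {o : V} {Y : List V} {k : ℕ} (hk : Y.length = k) (h : ∀ y ∈ Y, y ≠ o) :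
    mn o Y ∈ StL o k :=
  Submodule.subset_span ⟨Y, hk, h, rfl⟩

theorem StL_le_St (o : V) (k : ℕ) : StL o k ≤ St o := by
  apply Submodule.span_le.2
  rintro _ ⟨Y, _, h, rfl⟩
  exact mn_mem_St h

theorem StL_le_St1 (o : V) (k : ℕ) : StL o (k + 1) ≤ St1 o := by
  apply Submodule.span_le.2
  rintro _ ⟨Y, hk, h, rfl⟩
  refine mn_mem_St1 ?_ h
  rintro rfl
  simp at hk

theorem step_mem_StL {o y : V} (hy : y ≠ o) {k : ℕ} {X : E V} (hX : X ∈ StL o k) :
    act (Equiv.swap y o) X * x y o ∈ StL o (k + 1) := by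
  unfold StL at hX
  induction hX using Submodule.span_induction with
  | mem Z hZ =>
    obtain ⟨Y, hk, h, rfl⟩ := hZ
    rw [← mn_cons]
    refine mn_mem_StL (by simp [hk]) ?_
    intro z hz
    rcases List.mem_cons.1 hz with rfl | hz
    · exact hy
    · exact h z hz
  | zero => rw [map_zero, zero_mul]; exact Submodule.zero_mem _
  | add A B _ _ hA hB => rw [map_add, add_mul]; exact Submodule.add_mem _ hA hB
  | smul r A _ hA => rw [map_smul, smul_mul_assoc]; exact Submodule.smul_mem _ r hA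

theorem D_mn_mem_StL {o : V} (Y : List V) (h : ∀ y ∈ Y, y ≠ o) (a b : V) {k : ℕ}
    (hk : Y.length = k + 1) : D a b (mn o Y) ∈ StL o k := by
  induction Y generalizing a b k with
  | nil => simp at hk
  | cons y Y ih =>
    have hY : ∀ z ∈ Y, z ≠ o := fun z hz => h z (List.mem_cons_of_mem _ hz)
    have hy : y ≠ o := h y (by simp)
    have hk' : Y.length = k := by simpa using hk
    rw [D_mn_cons]
    refine Submodule.add_mem _ (Submodule.smul_mem _ _ (mn_mem_StL hk' hY)) ?_
    cases k with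
    | zero =>
      have : Y = [] := List.length_eq_zero_iff.1 hk'
      subst this
      simp
    | succ k => exact step_mem_StL hy (ih hY _ _ hk')

theorem D_mem_StL {o : V} (a b : V) {k : ℕ} {X : E V} (hX : X ∈ StL o (k + 1)) :
    D a b X ∈ StL o k := by
  unfold StL at hX
  induction hX using Submodule.span_induction with
  | mem Z hZ =>
    obtain ⟨Y, hk, h, rfl⟩ := hZ
    exact D_mn_mem_StL Y h a b hk
  | zero => rw [map_zero]; exact Submodule.zero_mem _
  | add A B _ _ hA hB => rw [map_add]; exact Submodule.add_mem _ hA hB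
  | smul r A _ hA => rw [map_smul]; exact Submodule.smul_mem _ r hA

theorem act_mem_StL {o : V} {g : Equiv.Perm V} (hg : g o = o) {k : ℕ} {X : E V}
    (hX : X ∈ StL o k) : act g X ∈ StL o k := by
  unfold StL at hX
  induction hX using Submodule.span_induction with
  | mem Z hZ =>
    obtain ⟨Y, hk, h, rfl⟩ := hZ
    rw [act_mn hg]
    refine mn_mem_StL (by simpa using hk) ?_
    intro z hz
    obtain ⟨y, hy, rfl⟩ := List.mem_map.1 hz
    intro h'
    exact h y hy (g.injective (h'.trans hg.symm))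
  | zero => rw [map_zero]; exact Submodule.zero_mem _
  | add A B _ _ hA hB => rw [map_add]; exact Submodule.add_mem _ hA hB
  | smul r A _ hA => rw [map_smul]; exact Submodule.smul_mem _ r hA

/-- the elements of `StL o k` are combinations of monomials of length `k` -/
theorem StL_le_span (o : V) (k : ℕ) :
    StL o k ≤ Submodule.span ℚ {m : E V | ∃ l : List (V × V), l.length = k ∧ mon l = m} := by
  apply Submodule.span_le.2
  rintro _ ⟨Y, hk, _, rfl⟩
  obtain ⟨l, hl, h⟩ := mn_eq_mon o Y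
  exact Submodule.subset_span ⟨l, hl.trans hk, h⟩

/-- the test for the radical in the star space -/
theorem zero_test {o : V} {k : ℕ} {X : E V} (hX : X ∈ StL o (k + 1))
    (h : ∀ s, s ≠ o → ∀ Q, form (D s o X) Q = 0) (Q : E V) : form X Q = 0 :=
  hN o (StL_le_St1 o k hX) h Q

/-! ### transitivity -/

theorem perm1 {o s t : V} (hs : s ≠ o) (ht : t ≠ o) :
    Equiv.swap s t o = o ∧ Equiv.swap s t s = t :=
  ⟨Equiv.swap_apply_of_ne_of_ne (Ne.symm hs) (Ne.symm ht), Equiv.swap_apply_left s t⟩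

/-- the permutation with `a ↦ u`, `b ↦ v` -/
def tau (a b u v : V) : Equiv.Perm V := Equiv.swap (Equiv.swap a u b) v * Equiv.swap a u

theorem perm2 {o a b u v : V} (ha : a ≠ o) (hb : b ≠ o) (hu : u ≠ o) (hv : v ≠ o) (hab : a ≠ b)
    (huv : u ≠ v) : tau a b u v o = o ∧ tau a b u v a = u ∧ tau a b u v b = v := by
  have h1 : Equiv.swap a u o = o := (perm1 ha hu).1
  have h2 : Equiv.swap a u b ≠ u := by
    intro h
    have := (Equiv.swap a u).injective (h.trans (Equiv.swap_apply_left a u).symm)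
    exact hab this.symm
  have h3 : Equiv.swap a u b ≠ o := by
    intro h
    have := (Equiv.swap a u).injective (h.trans h1.symm)
    exact hb this
  refine ⟨?_, ?_, ?_⟩
  · unfold tau
    rw [Equiv.Perm.mul_apply, h1, Equiv.swap_apply_of_ne_of_ne (Ne.symm h3) (Ne.symm hv)]
  · unfold tau
    rw [Equiv.Perm.mul_apply, Equiv.swap_apply_left, Equiv.swap_apply_of_ne_of_ne (Ne.symm h2) huv]
  · unfold tau
    rw [Equiv.Perm.mul_apply, Equiv.swap_apply_left]

theorem perm3 {o s a b t u v : V} (hs : s ≠ o) (ha : a ≠ o) (hb : b ≠ o) (ht : t ≠ o) (hu : u ≠ o)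
    (hv : v ≠ o) (hsa : s ≠ a) (hsb : s ≠ b) (hab : a ≠ b) (htu : t ≠ u) (htv : t ≠ v)
    (huv : u ≠ v) : ∃ g : Equiv.Perm V, g o = o ∧ g s = t ∧ g a = u ∧ g b = v := by
  obtain ⟨h1, h2, h3⟩ := perm2 ha hb hu hv hab huv
  set g := tau a b u v
  have h4 : g s ≠ o := fun h => hs (g.injective (h.trans h1.symm))
  have h5 : g s ≠ u := fun h => hsa (g.injective (h.trans h2.symm))
  have h6 : g s ≠ v := fun h => hsb (g.injective (h.trans h3.symm))
  refine ⟨Equiv.swap (g s) t * g, ?_, ?_, ?_, ?_⟩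
  · rw [Equiv.Perm.mul_apply, h1, Equiv.swap_apply_of_ne_of_ne (Ne.symm h4) (Ne.symm ht)]
  · rw [Equiv.Perm.mul_apply, Equiv.swap_apply_left]
  · rw [Equiv.Perm.mul_apply, h2, Equiv.swap_apply_of_ne_of_ne (Ne.symm h5) (Ne.symm htu)]
  · rw [Equiv.Perm.mul_apply, h3, Equiv.swap_apply_of_ne_of_ne (Ne.symm h6) (Ne.symm htv)]

/-! ### the family -/

/-- the family with the representatives `Ls` at `(s, o)` and `Lab` at `(a, b)` -/
noncomputable def fam (o s a b : V) (Ls Lab : E V) (u v : V) : E V :=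
  if u = v then 0 else if v = o then act (Equiv.swap s u) Ls
  else if u = o then - act (Equiv.swap s v) Ls else act (tau a b u v) Lab

section fam

variable {o s a b : V} {Ls Lab : E V}

theorem Ls_unique (hs : ∀ g : Equiv.Perm V, g o = o → g s = s → act g Ls = Ls)
    {g g' : Equiv.Perm V} (hg : g o = o) (hg' : g' o = o) (h : g s = g' s) :
    act g Ls = act g' Ls := by
  have h1 : act (g'⁻¹ * g) Ls = Ls := by
    apply hs
    · rw [Equiv.Perm.mul_apply, hg]
      exact Equiv.Perm.inv_eq_iff_eq.2 hg'.symm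
    · rw [Equiv.Perm.mul_apply, h]
      exact Equiv.Perm.inv_eq_iff_eq.2 rfl
  conv_rhs => rw [← h1]
  rw [act_act]; congr 1
  simp

theorem Lab_unique (hab : ∀ g : Equiv.Perm V, g o = o → g a = a → g b = b → act g Lab = Lab)
    {g g' : Equiv.Perm V} (hg : g o = o) (hg' : g' o = o) (h : g a = g' a) (h' : g b = g' b) :
    act g Lab = act g' Lab := by
  have h1 : act (g'⁻¹ * g) Lab = Lab := by
    apply hab
    · rw [Equiv.Perm.mul_apply, hg]
      exact Equiv.Perm.inv_eq_iff_eq.2 hg'.symm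
    · rw [Equiv.Perm.mul_apply, h]
      exact Equiv.Perm.inv_eq_iff_eq.2 rfl
    · rw [Equiv.Perm.mul_apply, h']
      exact Equiv.Perm.inv_eq_iff_eq.2 rfl
  conv_rhs => rw [← h1]
  rw [act_act]; congr 1
  simp

theorem fam_so (hso : s ≠ o) (hs : ∀ g : Equiv.Perm V, g o = o → g s = s → act g Ls = Ls)
    {g : Equiv.Perm V} (hg : g o = o) : fam o s a b Ls Lab (g s) o = act g Ls := by
  have h1 : g s ≠ o := fun h => hso (g.injective (h.trans hg.symm))
  unfold fam
  rw [if_neg h1, if_pos rfl]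
  exact Ls_unique hs (perm1 hso h1).1 hg (perm1 hso h1).2

theorem fam_os (hso : s ≠ o) (hs : ∀ g : Equiv.Perm V, g o = o → g s = s → act g Ls = Ls)
    {g : Equiv.Perm V} (hg : g o = o) : fam o s a b Ls Lab o (g s) = - act g Ls := by
  have h1 : g s ≠ o := fun h => hso (g.injective (h.trans hg.symm))
  unfold fam
  rw [if_neg (Ne.symm h1), if_neg h1, if_pos rfl]
  congr 1
  exact Ls_unique hs (perm1 hso h1).1 hg (perm1 hso h1).2

theorem fam_ab (hao : a ≠ o) (hbo : b ≠ o) (hne : a ≠ b)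
    (hab : ∀ g : Equiv.Perm V, g o = o → g a = a → g b = b → act g Lab = Lab)
    {g : Equiv.Perm V} (hg : g o = o) : fam o s a b Ls Lab (g a) (g b) = act g Lab := by
  have h1 : g a ≠ o := fun h => hao (g.injective (h.trans hg.symm))
  have h2 : g b ≠ o := fun h => hbo (g.injective (h.trans hg.symm))
  have h3 : g a ≠ g b := fun h => hne (g.injective h)
  obtain ⟨e1, e2, e3⟩ := perm2 hao hbo h1 h2 hne h3
  unfold fam
  rw [if_neg h3, if_neg h2, if_neg h1]
  exact Lab_unique hab e1 hg e2 e3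

/-- the three types of pairs -/
theorem pair_cases (hso : s ≠ o) (hao : a ≠ o) (hbo : b ≠ o) (hne : a ≠ b) (u v : V) :
    u = v ∨ (∃ g : Equiv.Perm V, g o = o ∧ u = g s ∧ v = o) ∨
      (∃ g : Equiv.Perm V, g o = o ∧ u = o ∧ v = g s) ∨
      (∃ g : Equiv.Perm V, g o = o ∧ u = g a ∧ v = g b) := by
  by_cases huv : u = v
  · exact Or.inl huv
  by_cases hv : v = o
  · have hu : u ≠ o := fun h => huv (h.trans hv.symm)
    exact Or.inr (Or.inl ⟨Equiv.swap s u, (perm1 hso hu).1, (perm1 hso hu).2.symm, hv⟩)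
  by_cases hu : u = o
  · exact Or.inr (Or.inr (Or.inl ⟨Equiv.swap s v, (perm1 hso hv).1, hu, (perm1 hso hv).2.symm⟩))
  obtain ⟨e1, e2, e3⟩ := perm2 hao hbo hu hv hne huv
  exact Or.inr (Or.inr (Or.inr ⟨_, e1, e2.symm, e3.symm⟩))

theorem fam_act (hso : s ≠ o) (hao : a ≠ o) (hbo : b ≠ o) (hne : a ≠ b)
    (hs : ∀ g : Equiv.Perm V, g o = o → g s = s → act g Ls = Ls)
    (hab : ∀ g : Equiv.Perm V, g o = o → g a = a → g b = b → act g Lab = Lab)
    (h : Equiv.Perm V) (hh : h o = o) (u v : V) :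
    act h (fam o s a b Ls Lab u v) = fam o s a b Ls Lab (h u) (h v) := by
  rcases pair_cases hso hao hbo hne u v with rfl | ⟨g, hg, rfl, rfl⟩ | ⟨g, hg, rfl, rfl⟩ |
    ⟨g, hg, rfl, rfl⟩
  · unfold fam; rw [if_pos rfl, if_pos rfl, map_zero]
  · have hhg : (h * g) v = v := by rw [Equiv.Perm.mul_apply, hg, hh]
    rw [fam_so hso hs hg, act_act, hh, ← Equiv.Perm.mul_apply, fam_so hso hs hhg]
  · have hhg : (h * g) u = u := by rw [Equiv.Perm.mul_apply, hg, hh]
    rw [fam_os hso hs hg, map_neg, act_act, hh, ← Equiv.Perm.mul_apply, fam_os hso hs hhg]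
  · have hhg : (h * g) o = o := by rw [Equiv.Perm.mul_apply, hg, hh]
    rw [fam_ab hao hbo hne hab hg, act_act, ← Equiv.Perm.mul_apply, ← Equiv.Perm.mul_apply,
      fam_ab hao hbo hne hab hhg]

theorem fam_anti (hso : s ≠ o) (hao : a ≠ o) (hbo : b ≠ o) (hne : a ≠ b)
    (hs : ∀ g : Equiv.Perm V, g o = o → g s = s → act g Ls = Ls)
    (hab : ∀ g : Equiv.Perm V, g o = o → g a = a → g b = b → act g Lab = Lab)
    (hsw : act (Equiv.swap a b) Lab = - Lab) (u v : V) :
    fam o s a b Ls Lab u v = - fam o s a b Ls Lab v u := by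
  rcases pair_cases hso hao hbo hne u v with rfl | ⟨g, hg, rfl, rfl⟩ | ⟨g, hg, rfl, rfl⟩ |
    ⟨g, hg, rfl, rfl⟩
  · unfold fam; rw [if_pos rfl, neg_zero]
  · rw [fam_so hso hs hg, fam_os hso hs hg, neg_neg]
  · rw [fam_so hso hs hg, fam_os hso hs hg]
  · have h1 : (g * Equiv.swap a b) o = o := by
      rw [Equiv.Perm.mul_apply, (perm1 hao hbo).1, hg]
    have h2 : g b = (g * Equiv.swap a b) a := by
      rw [Equiv.Perm.mul_apply, Equiv.swap_apply_left]
    have h3 : g a = (g * Equiv.swap a b) b := by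
      rw [Equiv.Perm.mul_apply, Equiv.swap_apply_right]
    rw [fam_ab hao hbo hne hab hg]
    conv_rhs => rw [h2, h3]
    rw [fam_ab hao hbo hne hab h1, ← act_act, hsw, map_neg, neg_neg]

theorem fam_mem' (S : Submodule ℚ (E V))
    (hact : ∀ g : Equiv.Perm V, g o = o → ∀ X ∈ S, act g X ∈ S)
    (hso : s ≠ o) (hao : a ≠ o) (hbo : b ≠ o) (hne : a ≠ b)
    (hs : ∀ g : Equiv.Perm V, g o = o → g s = s → act g Ls = Ls)
    (hab : ∀ g : Equiv.Perm V, g o = o → g a = a → g b = b → act g Lab = Lab)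
    (h1 : Ls ∈ S) (h2 : Lab ∈ S) (u v : V) :
    fam o s a b Ls Lab u v ∈ S := by
  rcases pair_cases hso hao hbo hne u v with rfl | ⟨g, hg, rfl, rfl⟩ | ⟨g, hg, rfl, rfl⟩ |
    ⟨g, hg, rfl, rfl⟩
  · unfold fam; rw [if_pos rfl]; exact Submodule.zero_mem _
  · rw [fam_so hso hs hg]; exact hact g hg _ h1
  · rw [fam_os hso hs hg]; exact Submodule.neg_mem _ (hact g hg _ h1)
  · rw [fam_ab hao hbo hne hab hg]; exact hact g hg _ h2

theorem eps_D_act (h : ∀ u v, eps (D u v Ls) = 0) (g : Equiv.Perm V) (u v : V) :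
    eps (D u v (act g Ls)) = 0 := by
  have := h (g⁻¹ u) (g⁻¹ v)
  have e : D u v (act g Ls) = act g (D (g⁻¹ u) (g⁻¹ v) Ls) := by
    rw [act_D]; simp
  rw [e, eps_act, this]

theorem eps_D_fam (hso : s ≠ o) (hao : a ≠ o) (hbo : b ≠ o) (hne : a ≠ b)
    (hs : ∀ g : Equiv.Perm V, g o = o → g s = s → act g Ls = Ls)
    (hab : ∀ g : Equiv.Perm V, g o = o → g a = a → g b = b → act g Lab = Lab)
    (h1 : ∀ u v, eps (D u v Ls) = 0) (h2 : ∀ u v, eps (D u v Lab) = 0) (c e u v : V) :
    eps (D c e (fam o s a b Ls Lab u v)) = 0 := by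
  rcases pair_cases hso hao hbo hne u v with rfl | ⟨g, hg, rfl, rfl⟩ | ⟨g, hg, rfl, rfl⟩ |
    ⟨g, hg, rfl, rfl⟩
  · unfold fam; rw [if_pos rfl, map_zero, map_zero]
  · rw [fam_so hso hs hg]; exact eps_D_act h1 g c e
  · rw [fam_os hso hs hg, map_neg, map_neg, eps_D_act h1 g c e, neg_zero]
  · rw [fam_ab hao hbo hne hab hg]; exact eps_D_act h2 g c e

end fam

theorem form_act_zero {X : E V} (h : ∀ Q, form X Q = 0) (g : Equiv.Perm V) (Q : E V) :
    form (act g X) Q = 0 := by
  rw [form_act_left]; exact h _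

/-- **Functionals from two orbit representatives**, for an abstract star space `S`. -/
theorem ext_functional_orbit' (o s a b : V) (hso : s ≠ o) (hao : a ≠ o) (hbo : b ≠ o) (hsa : s ≠ a)
    (hsb : s ≠ b) (hne : a ≠ b) (Ls Lab : E V) (S : Submodule ℚ (E V))
    (hD : ∀ u v, ∀ X ∈ S, D u v X ∈ S)
    (hactS : ∀ g : Equiv.Perm V, g o = o → ∀ X ∈ S, act g X ∈ S)
    (h0 : ∀ u v, u ≠ o → v ≠ o → ∀ X ∈ S, eps (D u v X) = 0)
    (hLs : Ls ∈ S) (hLab : Lab ∈ S)
    (hLs0 : ∀ u v, eps (D u v Ls) = 0) (hLab0 : ∀ u v, eps (D u v Lab) = 0)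
    (hs : ∀ g : Equiv.Perm V, g o = o → g s = s → act g Ls = Ls)
    (hab : ∀ g : Equiv.Perm V, g o = o → g a = a → g b = b → act g Lab = Lab)
    (hsw : act (Equiv.swap a b) Lab = - Lab)
    (sq : ∀ Q, form (D s o Ls) Q = 0)
    (comm : ∀ Q, form (D s o Lab - D a b Ls) Q = 0)
    (tri : ∀ Q, form (D a b (act (Equiv.swap s b) Ls) - D b o (act (Equiv.swap s a) Ls)
      - D a o Lab) Q = 0) :
    ∃ phi : E V →ₗ[ℚ] ℚ, phi 1 = 0 ∧
      (∀ t, t ≠ o → ∀ Q, phi (Q * x t o) = form (act (Equiv.swap s t) Ls) Q) ∧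
      (∀ Q, phi (Q * x a b) = form Lab Q) ∧
      ∀ g : Equiv.Perm V, g o = o → ∀ Q, phi (act g Q) = phi Q := by
  set L := fam o s a b Ls Lab with hL
  have hact : ∀ g : Equiv.Perm V, g o = o → ∀ u v, act g (L u v) = L (g u) (g v) :=
    fun g hg u v => fam_act hso hao hbo hne hs hab g hg u v
  have hanti : ∀ u v, L u v = - L v u := fun u v => fam_anti hso hao hbo hne hs hab hsw u v
  have hLt : ∀ t, t ≠ o → L t o = act (Equiv.swap s t) Ls := by
    intro t ht
    have := fam_so (a := a) (b := b) (Lab := Lab) hso hs (perm1 hso ht).1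
    rw [(perm1 hso ht).2] at this
    exact this
  have hLso : L s o = Ls := by
    rw [hLt s hso, Equiv.swap_self]; exact DFunLike.congr_fun act_one Ls
  have hLab' : L a b = Lab := by
    have := fam_ab (s := s) (Ls := Ls) hao hbo hne hab (g := 1) rfl
    simpa using this
  obtain ⟨phi, h1, h2⟩ := ext_functional_star o S hD h0 L
    (fun u v => fam_mem' S hactS hso hao hbo hne hs hab hLs hLab u v)
    (fun c e u v => eps_D_fam hso hao hbo hne hs hab hLs0 hLab0 c e u v) hanti
    (by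
      intro t ht Q
      have h := hact _ (perm1 hso ht).1 s o
      rw [(perm1 hso ht).1, (perm1 hso ht).2, hLso] at h
      rw [← h]
      have e : D t o (act (Equiv.swap s t) Ls) = act (Equiv.swap s t) (D s o Ls) := by
        rw [act_D, (perm1 hso ht).1, (perm1 hso ht).2]
      rw [e]
      exact form_act_zero sq _ _)
    (by
      intro t u v ht hu hv htu htv huv Q
      obtain ⟨g, g1, g2, g3, g4⟩ := perm3 hso hao hbo ht hu hv hsa hsb hne htu htv huv
      have e1 := hact g g1 a b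
      have e2 := hact g g1 s o
      rw [g3, g4, hLab'] at e1
      rw [g1, g2, hLso] at e2
      rw [← e1, ← e2]
      have f1 : D t o (act g Lab) = act g (D s o Lab) := by rw [act_D, g1, g2]
      have f2 : D u v (act g Ls) = act g (D a b Ls) := by rw [act_D, g3, g4]
      rw [f1, f2]
      have := form_act_zero comm g Q
      rw [map_sub, sub_eq_add_neg, form_add_left, form_neg_left] at this
      linarith)
    (by
      intro u v huv hu hv Q
      obtain ⟨g1, g2, g3⟩ := perm2 hao hbo hu hv hne huv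
      set g := tau a b u v
      have e1 := hact g g1 a b
      have e2 := hact g g1 b o
      have e3 := hact g g1 a o
      rw [g2, g3, hLab'] at e1
      rw [g1, g3, hLt b hbo] at e2
      rw [g1, g2, hLt a hao] at e3
      have h := form_act_zero tri g Q
      rw [map_sub, map_sub, act_D, act_D, act_D, g1, g2, g3, e1, e2, e3] at h
      have e4 : D u v (L v o) + D v o (L o u) + D o u (L u v)
          = D u v (L v o) - D v o (L u o) - D u o (L u v) := by
        rw [hanti o u, map_neg, D_anti o u]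
        abel
      rw [e4]; exact h)
  refine ⟨phi, h1, ?_, ?_, ?_⟩
  · intro t ht Q
    rw [h2, hLt t ht]
  · intro Q
    rw [h2, hLab']
  · intro g hg Q
    exact phi_act hact h1 h2 hg Q

/-- **Functionals from two orbit representatives.** -/
theorem ext_functional_orbit (o s a b : V) (hso : s ≠ o) (hao : a ≠ o) (hbo : b ≠ o) (hsa : s ≠ a)
    (hsb : s ≠ b) (hne : a ≠ b) (Ls Lab : E V) (k : ℕ) (hLs : Ls ∈ StL o (k + 2))
    (hLab : Lab ∈ StL o (k + 2))
    (hs : ∀ g : Equiv.Perm V, g o = o → g s = s → act g Ls = Ls)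
    (hab : ∀ g : Equiv.Perm V, g o = o → g a = a → g b = b → act g Lab = Lab)
    (hsw : act (Equiv.swap a b) Lab = - Lab)
    (sq : ∀ Q, form (D s o Ls) Q = 0)
    (comm : ∀ Q, form (D s o Lab - D a b Ls) Q = 0)
    (tri : ∀ Q, form (D a b (act (Equiv.swap s b) Ls) - D b o (act (Equiv.swap s a) Ls)
      - D a o Lab) Q = 0) :
    ∃ phi : E V →ₗ[ℚ] ℚ, phi 1 = 0 ∧
      (∀ t, t ≠ o → ∀ Q, phi (Q * x t o) = form (act (Equiv.swap s t) Ls) Q) ∧
      (∀ Q, phi (Q * x a b) = form Lab Q) ∧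
      ∀ g : Equiv.Perm V, g o = o → ∀ Q, phi (act g Q) = phi Q :=
  ext_functional_orbit' o s a b hso hao hbo hsa hsb hne Ls Lab (St o)
    (fun u v X hX => D_mem_St u v hX) (fun g hg X hX => act_mem_St hg hX)
    (fun u v hu hv X hX => eps_D_St hu hv hX) (StL_le_St _ _ hLs) (StL_le_St _ _ hLab)
    (fun u v => eps_St1 (StL_le_St1 o k (D_mem_StL u v hLs)))
    (fun u v => eps_St1 (StL_le_St1 o k (D_mem_StL u v hLab))) hs hab hsw sq comm tri

end Pool.Agent.FKC
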