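import Pool.Agent.FKC.Right

/-! The compatibility conditions for partial functionals in the star space need only be checked for the
relations which contain the centre. -/

namespace Pool.Agent.FKC

open Pool.Agent.H71.FK

set_option linter.unusedSectionVars false

section module

variable {V : Type} [DecidableEq V] {M : Type} [AddCommGroup M] [Module ℚ M]

/-- the conditions with the centre `o` -/
structure CC (d : V → V → Module.End ℚ M) (l : V → V → M) (o : V) : Prop where
  anti : ∀ a b, l a b = - l b a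
  sq : ∀ s, s ≠ o → d s o (l s o) = 0
  comm : ∀ s a b, s ≠ o → a ≠ o → b ≠ o → s ≠ a → s ≠ b → a ≠ b →
    d s o (l a b) = d a b (l s o)
  tri : ∀ a b, a ≠ b → a ≠ o → b ≠ o →
    d a b (l b o) + d b o (l o a) + d o a (l a b) = 0

variable {d : V → V → Module.End ℚ M} {l : V → V → M} {o : V}

theorem dneg (hd : Good d) (a b : V) (X : M) : d a b X = - d b a X := by
  rw [hd.anti a b]; rfl

theorem dsq (hd : Good d) {a b : V} (h : a ≠ b) (X : M) : d a b (d a b X) = 0 := by
  have := congrArg (fun f : Module.End ℚ M => f X) (hd.sq a b h)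
  simpa using this

theorem dcomm (hd : Good d) {a b c e : V} (h1 : a ≠ b) (h2 : a ≠ c) (h3 : a ≠ e) (h4 : b ≠ c)
    (h5 : b ≠ e) (h6 : c ≠ e) (X : M) : d a b (d c e X) = d c e (d a b X) := by
  have := congrArg (fun f : Module.End ℚ M => f X) (hd.comm a b c e h1 h2 h3 h4 h5 h6)
  simpa using this

theorem dtri (hd : Good d) {a b c : V} (h1 : a ≠ b) (h2 : b ≠ c) (h3 : c ≠ a) (X : M) :
    d a b (d b c X) + d b c (d c a X) + d c a (d a b X) = 0 := by
  have := congrArg (fun f : Module.End ℚ M => f X) (hd.tri a b c h1 h2 h3)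
  simpa using this

/-- `d_ao d_ab = d_ab d_bo + d_bo d_oa` -/
theorem dao (hd : Good d) {a b : V} (hab : a ≠ b) (ha : a ≠ o) (hb : b ≠ o) (X : M) :
    d a o (d a b X) = d a b (d b o X) + d b o (d o a X) := by
  have h := dtri hd (Ne.symm ha) hab hb X
  rw [dneg hd o a] at h
  have : d a o (d a b X) = d a b (d b o X) + d b o (d o a X) := by
    have h' : - d a o (d a b X) + (d a b (d b o X) + d b o (d o a X)) = 0 := by
      rw [← h]; abel
    exact (neg_add_eq_zero.1 h')
  exact this

/-- `d_ao l_ab = d_ab l_bo + d_bo l_oa` -/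
theorem lao (hd : Good d) (h : CC d l o) {a b : V} (hab : a ≠ b) (ha : a ≠ o) (hb : b ≠ o) :
    d a o (l a b) = d a b (l b o) + d b o (l o a) := by
  have h1 := h.tri a b hab ha hb
  rw [dneg hd o a] at h1
  have h' : - d a o (l a b) + (d a b (l b o) + d b o (l o a)) = 0 := by
    rw [← h1]; abel
  exact (neg_add_eq_zero.1 h')

/-- `d_bo l_ab = d_ab l_ao + d_ao l_bo` -/
theorem lbo (hd : Good d) (h : CC d l o) {a b : V} (hab : a ≠ b) (ha : a ≠ o) (hb : b ≠ o) :
    d b o (l a b) = d a b (l a o) + d a o (l b o) := by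
  have h1 := lao hd h (Ne.symm hab) hb ha
  rw [h.anti b a, map_neg, h.anti o b, map_neg, dneg hd b a] at h1
  have h2 := congrArg Neg.neg h1
  rw [neg_neg] at h2
  rw [h2]; abel

variable (S : Set M) (hN : ∀ X ∈ S, (∀ s, s ≠ o → d s o X = 0) → X = 0)

theorem cc_sq_aux (hd : Good d) (h : CC d l o) {a b : V} (hab : a ≠ b) (ha : a ≠ o) (hb : b ≠ o) :
    d a o (d a b (l a b)) = 0 := by
  have e1 : d a o (d a b (l a b)) = d a b (d b o (l a b)) + d b o (d o a (l a b)) :=
    dao hd hab ha hb _
  have e2 : d a b (d b o (l a b)) = d a b (d a o (l b o)) := by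
    rw [lbo hd h hab ha hb, map_add, dsq hd hab, zero_add]
  have e3 : d b o (d o a (l a b)) = - d b o (d a b (l b o)) := by
    rw [dneg hd o a, lao hd h hab ha hb, map_neg, map_add, dsq hd hb, add_zero]
  have e4 : d b o (d b a (l b o)) = d b a (d a o (l b o)) + d a o (d o b (l b o)) :=
    dao hd (Ne.symm hab) hb ha _
  have e5 : d a o (d o b (l b o)) = 0 := by rw [dneg hd o b, h.sq b hb]; simp
  rw [e5, add_zero, dneg hd b a, dneg hd b a, map_neg] at e4
  rw [e1, e2, e3, ← neg_inj.1 (by rw [e4] : - d b o (d a b (l b o)) = - d a b (d a o (l b o)))]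
  abel

include hN in
theorem cc_sq (hd : Good d) (h : CC d l o) (hS : ∀ a b, d a b (l a b) ∈ S) {a b : V} (hab : a ≠ b) :
    d a b (l a b) = 0 := by
  by_cases ha : a = o
  · subst ha
    rw [dneg hd, h.anti, map_neg, h.sq b (Ne.symm hab)]; simp
  · by_cases hb : b = o
    · subst hb; exact h.sq a ha
    · apply hN _ (hS a b)
      intro s hs
      by_cases hsa : s = a
      · subst hsa; exact cc_sq_aux hd h hab ha hb
      · by_cases hsb : s = b
        · subst hsb
          have := cc_sq_aux hd h (Ne.symm hab) hb ha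
          rw [dneg hd s a, h.anti s a] at this
          simp only [map_neg, neg_neg] at this
          exact this
        · rw [dcomm hd hs hsa hsb (Ne.symm ha) (Ne.symm hb) hab, h.comm s a b hs ha hb hsa hsb hab,
            dsq hd hab]

theorem cc_comm_aux (hd : Good d) (h : CC d l o) {a b c e : V} (hab : a ≠ b) (hac : a ≠ c)
    (hae : a ≠ e) (hbc : b ≠ c) (hbe : b ≠ e) (hce : c ≠ e) (ha : a ≠ o) (hb : b ≠ o) (hc : c ≠ o)
    (he : e ≠ o) : d a o (d a b (l c e) - d c e (l a b)) = 0 := by
  rw [map_sub, dao hd hab ha hb, dcomm hd ha hac hae (Ne.symm hc) (Ne.symm he) hce (l a b),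
    lao hd h hab ha hb, map_add, h.comm b c e hb hc he hbc hbe hce, dneg hd o a,
    h.comm a c e ha hc he hac hae hce, h.anti o a, map_neg, map_neg, map_neg,
    dcomm hd hab hac hae hbc hbe hce, dcomm hd hb hbc hbe (Ne.symm hc) (Ne.symm he) hce]
  abel

include hN in
theorem cc_comm (hd : Good d) (h : CC d l o)
    (hS : ∀ a b c e, d a b (l c e) - d c e (l a b) ∈ S) {a b c e : V} (hab : a ≠ b) (hac : a ≠ c)
    (hae : a ≠ e) (hbc : b ≠ c) (hbe : b ≠ e) (hce : c ≠ e) :
    d a b (l c e) = d c e (l a b) := by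
  by_cases ha : a = o
  · subst ha
    rw [dneg hd, h.comm b c e (Ne.symm hab) (Ne.symm hac) (Ne.symm hae) hbc hbe hce, h.anti a b,
      map_neg]
  by_cases hb : b = o
  · subst hb
    exact h.comm a c e hab (Ne.symm hbc) (Ne.symm hbe) hac hae hce
  by_cases hc : c = o
  · subst hc
    rw [dneg hd c e, h.comm e a b (Ne.symm hce) hac hbc (Ne.symm hae) (Ne.symm hbe) hab, h.anti c e,
      map_neg]
  by_cases he : e = o
  · subst he
    exact (h.comm c a b hce hae hbe (Ne.symm hac) (Ne.symm hbc) hab).symm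
  apply sub_eq_zero.1
  apply hN _ (hS a b c e)
  intro s hs
  by_cases hsa : s = a
  · subst hsa; exact cc_comm_aux hd h hab hac hae hbc hbe hce ha hb hc he
  by_cases hsb : s = b
  · subst hsb
    have := cc_comm_aux hd h (Ne.symm hab) hbc hbe hac hae hce hb ha hc he
    rw [dneg hd s a, h.anti s a, map_neg] at this
    rw [← neg_eq_zero, ← this, ← map_neg]
    congr 1; abel
  by_cases hsc : s = c
  · subst hsc
    have := cc_comm_aux hd h hce (Ne.symm hac) (Ne.symm hbc) (Ne.symm hae) (Ne.symm hbe) hab hc he ha hb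
    rw [← neg_eq_zero, ← this, ← map_neg]
    congr 1; abel
  by_cases hse : s = e
  · subst hse
    have := cc_comm_aux hd h (Ne.symm hce) (Ne.symm hae) (Ne.symm hbe) (Ne.symm hac) (Ne.symm hbc) hab
      he hc ha hb
    rw [dneg hd s c, h.anti s c, map_neg] at this
    rw [← this]
    congr 1; abel
  rw [map_sub, dcomm hd hs hsa hsb (Ne.symm ha) (Ne.symm hb) hab,
    dcomm hd hs hsc hse (Ne.symm hc) (Ne.symm he) hce, h.comm s c e hs hc he hsc hse hce,
    h.comm s a b hs ha hb hsa hsb hab, dcomm hd hab hac hae hbc hbe hce, sub_self]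

theorem cc_tri_aux (hd : Good d) (h : CC d l o) {a b c : V} (hab : a ≠ b) (hbc : b ≠ c) (hca : c ≠ a)
    (ha : a ≠ o) (hb : b ≠ o) (hc : c ≠ o) :
    d a o (d a b (l b c) + d b c (l c a) + d c a (l a b)) = 0 := by
  have t1 : d a o (d a b (l b c)) = d a b (d b c (l c o)) + d a b (d c o (l o b))
      + d b o (d b c (l o a)) := by
    rw [dao hd hab ha hb, lao hd h hbc hb hc, map_add, dneg hd o a,
      h.comm a b c ha hb hc hab (Ne.symm hca) hbc, h.anti o a, map_neg, map_neg, map_neg]
  have t2 : d a o (d b c (l c a)) = d b c (d c a (l c o)) + d b c (d c o (l a o)) := by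
    rw [dcomm hd ha hab (Ne.symm hca) (Ne.symm hb) (Ne.symm hc) hbc, lbo hd h hca hc ha, map_add]
  have t3 : d a o (d c a (l a b)) = d c a (d a b (l c o)) + d c o (d a b (l b o))
      + d c o (d b o (l o a)) := by
    rw [dneg hd c a, map_neg, dao hd (Ne.symm hca) ha hc, h.comm c a b hc ha hb hca (Ne.symm hbc) hab,
      dneg hd o a, lao hd h hab ha hb, map_neg, map_add, dneg hd a c]
    abel
  have r1 := dtri hd hab hbc hca (l c o)
  have r2 := dtri hd hbc hc (Ne.symm hb) (l o a)
  have r3 := dcomm hd hab (Ne.symm hca) ha hbc hb hc (l o b)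
  rw [dneg hd o b, dneg hd o b, map_neg] at r2
  rw [map_add, map_add, t1, t2, t3, h.anti a o, h.anti b o, r3]
  simp only [map_neg]
  have e : d b c (d c o (l o a)) = d c o (d b o (l o a)) + d b o (d b c (l o a)) := by
    have : d b c (d c o (l o a)) - (d c o (d b o (l o a)) + d b o (d b c (l o a))) = 0 := by
      rw [← r2]; abel
    exact sub_eq_zero.1 this
  rw [e]
  rw [← r1]
  abel

include hN in
theorem cc_tri (hd : Good d) (h : CC d l o)
    (hS : ∀ a b c, d a b (l b c) + d b c (l c a) + d c a (l a b) ∈ S) {a b c : V} (hab : a ≠ b)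
    (hbc : b ≠ c) (hca : c ≠ a) : d a b (l b c) + d b c (l c a) + d c a (l a b) = 0 := by
  by_cases hc : c = o
  · subst hc; exact h.tri a b hab (Ne.symm hca) hbc
  by_cases ha : a = o
  · subst ha
    rw [← h.tri b c hbc (Ne.symm hab) hca]; abel
  by_cases hb : b = o
  · subst hb
    rw [← h.tri c a hca (Ne.symm hbc) hab]; abel
  apply hN _ (hS a b c)
  intro s hs
  by_cases hsa : s = a
  · subst hsa; exact cc_tri_aux hd h hab hbc hca ha hb hc
  by_cases hsb : s = b
  · subst hsb
    rw [← cc_tri_aux hd h hbc hca hab hb hc ha]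
    congr 1; abel
  by_cases hsc : s = c
  · subst hsc
    rw [← cc_tri_aux hd h hca hab hbc hc ha hb]
    congr 1; abel
  rw [map_add, map_add, dcomm hd hs hsa hsb (Ne.symm ha) (Ne.symm hb) hab,
    dcomm hd hs hsb hsc (Ne.symm hb) (Ne.symm hc) hbc,
    dcomm hd hs hsc hsa (Ne.symm hc) (Ne.symm ha) hca,
    h.comm s b c hs hb hc hsb hsc hbc, h.comm s c a hs hc ha hsc hsa hca,
    h.comm s a b hs ha hb hsa hsb hab]
  exact dtri hd hab hbc hca (l s o)

end module

end Pool.Agent.FKC
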