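import Pool.Agent.FKC.Centre

/-! `ext_functional` with conditions only for the relations which contain the centre `o`. -/

namespace Pool.Agent.FKC

open Pool.Agent.H71.FK

set_option linter.unusedSectionVars false

variable {V : Type} [DecidableEq V]

theorem D_mem_Rad (a b : V) {X : E V} (hX : X ∈ (Rad : Submodule ℚ (E V))) :
    D a b X ∈ (Rad : Submodule ℚ (E V)) := by
  intro Q
  rw [← form_right_mul_x]
  exact hX _

/-- the derivations modulo the radical -/
noncomputable def dq (a b : V) : Module.End ℚ (E V ⧸ (Rad : Submodule ℚ (E V))) :=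
  Submodule.mapQ Rad Rad (D a b) (fun _ hX => D_mem_Rad a b hX)

theorem dq_mk (a b : V) (X : E V) :
    dq a b (Submodule.Quotient.mk X) = Submodule.Quotient.mk (D a b X) := rfl

theorem good_dq : Good (fun a b : V => dq a b) where
  anti a b := by
    apply LinearMap.ext
    intro X
    obtain ⟨X, rfl⟩ := Submodule.Quotient.mk_surjective _ X
    rw [LinearMap.neg_apply, dq_mk, dq_mk, D_anti]; rfl
  sq a b h := by
    apply LinearMap.ext
    intro X
    obtain ⟨X, rfl⟩ := Submodule.Quotient.mk_surjective _ X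
    rw [Module.End.mul_apply, dq_mk, dq_mk]
    have := congrArg (fun f : Module.End ℚ (E V) => f X) (good_D.sq a b h)
    simp only [Module.End.mul_apply, LinearMap.zero_apply] at this
    rw [this]; rfl
  comm a b c d h1 h2 h3 h4 h5 h6 := by
    apply LinearMap.ext
    intro X
    obtain ⟨X, rfl⟩ := Submodule.Quotient.mk_surjective _ X
    rw [Module.End.mul_apply, Module.End.mul_apply, dq_mk, dq_mk, dq_mk, dq_mk]
    have := congrArg (fun f : Module.End ℚ (E V) => f X) (good_D.comm a b c d h1 h2 h3 h4 h5 h6)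
    simp only [Module.End.mul_apply] at this
    rw [this]
  tri a b c h1 h2 h3 := by
    apply LinearMap.ext
    intro X
    obtain ⟨X, rfl⟩ := Submodule.Quotient.mk_surjective _ X
    rw [LinearMap.add_apply, LinearMap.add_apply, Module.End.mul_apply, Module.End.mul_apply,
      Module.End.mul_apply]
    simp only [dq_mk]
    have := congrArg (fun f : Module.End ℚ (E V) => f X) (good_D.tri a b c h1 h2 h3)
    simp only [LinearMap.add_apply, Module.End.mul_apply, LinearMap.zero_apply] at this
    rw [← Submodule.Quotient.mk_add, ← Submodule.Quotient.mk_add, this]; rfl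

theorem mk_zero_iff {X : E V} :
    (Submodule.Quotient.mk X : E V ⧸ (Rad : Submodule ℚ (E V))) = 0 ↔ ∀ Q, form X Q = 0 :=
  Submodule.Quotient.mk_eq_zero _

/-- **The functional with given partial functionals, conditions at the centre.** `S` is a set which
contains the elements `D a b (L c e)` and the expressions in the conditions, and in which an element
belongs to the radical as soon as its derivatives at the centre do. -/
theorem ext_functional_centre (o : V) (S : Submodule ℚ (E V))
    (hN : ∀ X ∈ S, (∀ s, s ≠ o → ∀ Q, form (D s o X) Q = 0) → ∀ Q, form X Q = 0)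
    (L : V → V → E V) (hS : ∀ a b c e, D a b (L c e) ∈ S)
    (anti : ∀ a b, L a b = - L b a)
    (sq : ∀ s, s ≠ o → ∀ Q, form (D s o (L s o)) Q = 0)
    (comm : ∀ s a b, s ≠ o → a ≠ o → b ≠ o → s ≠ a → s ≠ b → a ≠ b → ∀ Q,
      form (D s o (L a b)) Q = form (D a b (L s o)) Q)
    (tri : ∀ a b, a ≠ b → a ≠ o → b ≠ o → ∀ Q,
      form (D a b (L b o) + D b o (L o a) + D o a (L a b)) Q = 0) :
    ∃ phi : E V →ₗ[ℚ] ℚ, phi 1 = 0 ∧ ∀ a b Q, phi (Q * x a b) = form (L a b) Q := by
  let q : E V → E V ⧸ (Rad : Submodule ℚ (E V)) := Submodule.Quotient.mk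
  have hcc : CC (fun a b : V => dq a b) (fun a b => q (L a b)) o := by
    refine ⟨?_, ?_, ?_, ?_⟩
    · intro a b
      rw [anti a b]; rfl
    · intro s hs
      exact mk_zero_iff.2 (sq s hs)
    · intro s a b h1 h2 h3 h4 h5 h6
      have : q (D s o (L a b) - D a b (L s o)) = 0 := mk_zero_iff.2 (fun Q => by
        rw [sub_eq_add_neg, form_add_left, form_neg_left, comm s a b h1 h2 h3 h4 h5 h6 Q,
          add_neg_cancel])
      exact sub_eq_zero.1 this
    · intro a b h1 h2 h3
      exact mk_zero_iff.2 (tri a b h1 h2 h3)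
  let S' : Set (E V ⧸ (Rad : Submodule ℚ (E V))) := {Y | ∃ X ∈ S, q X = Y}
  have hN' : ∀ Y ∈ S', (∀ s, s ≠ o → dq s o Y = 0) → Y = 0 := by
    rintro Y ⟨X, hX, rfl⟩ h
    exact mk_zero_iff.2 (hN X hX fun s hs => mk_zero_iff.1 (h s hs))
  refine ext_functional L anti ?_ ?_ ?_
  · intro a b hab
    exact mk_zero_iff.1 (cc_sq S' hN' good_dq hcc (fun a b => ⟨D a b (L a b), hS a b a b, rfl⟩) hab)
  · intro a b c d h1 h2 h3 h4 h5 h6 Q
    have := cc_comm S' hN' good_dq hcc
      (fun a b c e => ⟨D a b (L c e) - D c e (L a b), Submodule.sub_mem _ (hS a b c e) (hS c e a b), rfl⟩)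
      h1 h2 h3 h4 h5 h6
    have h0 : q (D a b (L c d) - D c d (L a b)) = 0 := sub_eq_zero.2 this
    have h1 := mk_zero_iff.1 h0 Q
    rw [sub_eq_add_neg, form_add_left, form_neg_left] at h1
    linarith
  · intro a b c h1 h2 h3
    exact mk_zero_iff.1 (cc_tri S' hN' good_dq hcc
      (fun a b c => ⟨D a b (L b c) + D b c (L c a) + D c a (L a b),
        Submodule.add_mem _ (Submodule.add_mem _ (hS a b b c) (hS b c c a)) (hS c a a b), rfl⟩)
      h1 h2 h3)

end Pool.Agent.FKC
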