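import Pool.Agent.H71.FK.Form

/-! Deletion formula for the canonical form of the Fomin-Kirillov algebra: the adjoint of the left
multiplication by a generator deletes letters of a word. -/

namespace Pool.Agent.FKC

open Pool.Agent.H71.FK

set_option linter.unusedSectionVars false

variable {V : Type} [DecidableEq V]

/-- the product of the transpositions of a word -/
def gw : List (V × V) → Equiv.Perm V
  | [] => 1
  | p :: l => Equiv.swap p.1 p.2 * gw l

@[simp] theorem gw_nil : gw ([] : List (V × V)) = 1 := rfl

@[simp] theorem gw_cons (p : V × V) (l : List (V × V)) :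
    gw (p :: l) = Equiv.swap p.1 p.2 * gw l := rfl

/-- deletion of one letter, in all ways: the letter `p` is deleted from `u p v` with the coefficient
`Δ_p(x_{gw v (s)})` -/
noncomputable def DL (s : V × V) : List (V × V) → E V
  | [] => 0
  | p :: l => del p.1 p.2 (gw l s.1) (gw l s.2) • mon l + x p.1 p.2 * DL s l

theorem Phi_mul_left (l : List (V × V)) (s : V × V) (R : E V) :
    Phi (mon l) (x s.1 s.2 * R) =
      x (gw l s.1) (gw l s.2) * Phi (mon l) R + Phi (DL s l) R := by
  induction l with
  | nil => simp [DL]
  | cons p l ih =>
    rw [mon_cons, Phi_x_mul, ih, map_add, D_mul, D_x, act_x]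
    simp only [DL, map_add, LinearMap.add_apply, map_smul, LinearMap.smul_apply]
    rw [Phi_x_mul, Phi_x_mul]
    simp only [smul_mul_assoc, one_mul, gw_cons, Equiv.Perm.mul_apply]
    abel

theorem form_mon_x_mul (l : List (V × V)) (s : V × V) (R : E V) :
    form (mon l) (x s.1 s.2 * R) = form (DL s l) R := by
  unfold form
  rw [Phi_mul_left]
  simp

/-! ### equivariance of the form -/

theorem Phi_act (g : Equiv.Perm V) (P Q : E V) : Phi (act g P) (act g Q) = act g (Phi P Q) := by
  induction P using mon_induct with
  | hm l =>
    induction l with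
    | nil => simp
    | cons p l ih =>
      rw [mon_cons, Phi_x_mul, map_mul, act_x, Phi_x_mul, ih, act_D]
  | hadd p q hp hq => simp only [map_add, LinearMap.add_apply, hp, hq]
  | hsmul r p hp => simp only [map_smul, LinearMap.smul_apply, hp]

theorem form_act (g : Equiv.Perm V) (P Q : E V) : form (act g P) (act g Q) = form P Q := by
  unfold form; rw [Phi_act, eps_act]

theorem form_act_left (g : Equiv.Perm V) (P Q : E V) : form (act g P) Q = form P (act g⁻¹ Q) := by
  have := form_act g P (act g⁻¹ Q)
  rw [act_act] at this
  simpa using this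

/-! ### combinations of words -/

/-- integer combinations of words -/
abbrev Cb (V : Type) := List (ℤ × List (V × V))

/-- value of a combination -/
noncomputable def ev (C : Cb V) : E V := (C.map fun q => (q.1 : ℚ) • mon q.2).sum

@[simp] theorem ev_nil : ev ([] : Cb V) = 0 := rfl
@[simp] theorem ev_cons (q : ℤ × List (V × V)) (C : Cb V) :
    ev (q :: C) = (q.1 : ℚ) • mon q.2 + ev C := by simp [ev]
theorem ev_append (C C' : Cb V) : ev (C ++ C') = ev C + ev C' := by
  simp [ev, List.map_append, List.sum_append]

/-- `Δ_{ab}(x_{cd})` as an integer -/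
def delZ (a b c d : V) : ℤ := (if c = a ∧ d = b then 1 else 0) - (if c = b ∧ d = a then 1 else 0)

theorem delZ_cast (a b c d : V) : ((delZ a b c d : ℤ) : ℚ) = del a b c d := by
  unfold delZ del; push_cast; rfl

/-- deletions, as a combination of words -/
def DLl (s : V × V) : List (V × V) → Cb V
  | [] => []
  | p :: l =>
    let c := delZ p.1 p.2 (gw l s.1) (gw l s.2)
    let t := (DLl s l).map fun q => (q.1, p :: q.2)
    if c = 0 then t else (c, l) :: t

theorem ev_map_cons (p : V × V) (C : Cb V) :
    ev (C.map fun q => (q.1, p :: q.2)) = x p.1 p.2 * ev C := by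
  induction C with
  | nil => simp
  | cons q C ih => simp [ih, mul_add]

theorem ev_DLl (s : V × V) (l : List (V × V)) : ev (DLl s l) = DL s l := by
  induction l with
  | nil => rfl
  | cons p l ih =>
    simp only [DLl, DL]
    rw [← delZ_cast]
    split_ifs with h
    · rw [ev_map_cons, ih, h]; simp
    · rw [ev_cons, ev_map_cons, ih]

/-- multiplication of a combination by a scalar -/
def smulC (c : ℤ) (C : Cb V) : Cb V := C.map fun q => (c * q.1, q.2)

theorem ev_smulC (c : ℤ) (C : Cb V) : ev (smulC c C) = (c : ℚ) • ev C := by
  induction C with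
  | nil => simp [smulC]
  | cons q C ih =>
    have : smulC c (q :: C) = (c * q.1, q.2) :: smulC c C := rfl
    rw [this, ev_cons, ev_cons, ih, smul_add, smul_smul]
    push_cast; rfl

/-- deletions of a combination -/
def DLc (s : V × V) : Cb V → Cb V
  | [] => []
  | q :: C => smulC q.1 (DLl s q.2) ++ DLc s C

/-- the pairing with `x_s R` -/
theorem form_ev_x_mul (C : Cb V) (s : V × V) (R : E V) :
    form (ev C) (x s.1 s.2 * R) = form (ev (DLc s C)) R := by
  induction C with
  | nil => simp [DLc, form]
  | cons q C ih =>
    rw [ev_cons, form_add_left, form_smul_left, form_mon_x_mul, ih, DLc, ev_append, ev_smulC,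
      form_add_left, form_smul_left, ev_DLl]

/-! ### the radical -/

/-- the radical of the form -/
noncomputable def Rad : Submodule ℚ (E V) where
  carrier := {P | ∀ Q, form P Q = 0}
  add_mem' := by
    intro P P' h h' Q
    rw [form_add_left, h Q, h' Q, add_zero]
  zero_mem' := by intro Q; simp [form]
  smul_mem' := by
    intro r P h Q
    rw [form_smul_left, h Q, mul_zero]

theorem mem_Rad {P : E V} : P ∈ (Rad : Submodule ℚ (E V)) ↔ ∀ Q, form P Q = 0 := Iff.rfl

/-- A family of combinations without constant terms whose deletions are combinations of translates of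
the family lies in the radical. -/
theorem family_mem_Rad {ι : Type} (F : ι → Cb V) (h0 : ∀ i, eps (ev (F i)) = 0)
    (h : ∀ i s, ev (DLc s (F i)) ∈
      (Submodule.span ℚ {P : E V | ∃ (g : Equiv.Perm V) (j : ι), P = act g (ev (F j))} ⊔ Rad)) :
    ∀ i, ev (F i) ∈ (Rad : Submodule ℚ (E V)) := by
  have key : ∀ (n : ℕ) (l : List (V × V)), l.length = n → ∀ i : ι, form (ev (F i)) (mon l) = 0 := by
    intro n
    induction n with
    | zero =>
      intro l hl i
      rw [List.length_eq_zero_iff.1 hl, mon_nil, form_one_right, h0]
    | succ n ih =>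
      intro l hl i
      obtain ⟨s, l, rfl⟩ : ∃ s l', l = s :: l' := by
        cases l with
        | nil => simp at hl
        | cons s l => exact ⟨s, l, rfl⟩
      have hl' : l.length = n := by simpa using hl
      rw [mon_cons, form_ev_x_mul]
      have hi := h i s
      obtain ⟨y, hy, z, hz, hyz⟩ := Submodule.mem_sup.1 hi
      rw [← hyz, form_add_left, hz (mon l), add_zero]
      clear hyz hi hz
      induction hy using Submodule.span_induction with
      | mem P hP =>
        obtain ⟨g, j, rfl⟩ := hP
        rw [form_act_left, act_mon]
        exact ih _ (by simpa using hl') j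
      | zero => simp [form]
      | add p q _ _ hp hq => rw [form_add_left, hp, hq, add_zero]
      | smul r p _ hp => rw [form_smul_left, hp, mul_zero]
  intro i Q
  induction Q using mon_induct with
  | hm l => exact key _ l rfl i
  | hadd p q hp hq => rw [form_add_right, hp, hq, add_zero]
  | hsmul r p hp => rw [form_smul_right, hp, mul_zero]

end Pool.Agent.FKC
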