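import Pool.Agent.FKC.Bk

/-! The family of partial functionals for the centre `5` in `Fin 6`. -/

namespace Pool.Agent.FKC

open Pool.Agent.H71.FK Equiv

set_option linter.unusedSectionVars false

theorem inv_of_swaps_A {A : E (Fin 6)}
    (hA : ∀ i j : Fin 6, i ≠ 0 → i ≠ 5 → j ≠ 0 → j ≠ 5 → act (swap i j) A = A)
    (g : Perm (Fin 6)) (h5 : g 5 = 5) (h0 : g 0 = 0) : act g A = A := by
  apply act_eq_of_swaps (fun v => v ≠ 0 ∧ v ≠ 5) A
  · intro i j hi hj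
    exact hA i j hi.1 hi.2 hj.1 hj.2
  · intro v hv
    by_cases h : v = 0
    · rw [h, h0]
    · have : v = 5 := by
        by_contra h'
        exact hv ⟨h, h'⟩
      rw [this, h5]

theorem inv_of_swaps_B {B : E (Fin 6)}
    (hB : ∀ i j : Fin 6, i ≠ 0 → i ≠ 1 → i ≠ 5 → j ≠ 0 → j ≠ 1 → j ≠ 5 → act (swap i j) B = B)
    (g : Perm (Fin 6)) (h5 : g 5 = 5) (h0 : g 0 = 0) (h1 : g 1 = 1) : act g B = B := by
  apply act_eq_of_swaps (fun v => v ≠ 0 ∧ v ≠ 1 ∧ v ≠ 5) B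
  · intro i j hi hj
    exact hB i j hi.1 hi.2.1 hi.2.2 hj.1 hj.2.1 hj.2.2
  · intro v hv
    by_cases h : v = 0
    · rw [h, h0]
    by_cases h' : v = 1
    · rw [h', h1]
    · have : v = 5 := by
        by_contra h''
        exact hv ⟨h, h', h''⟩
      rw [this, h5]

/-- two permutations which fix `5` and agree at `0` act in the same way on `A` -/
theorem A_unique {A : E (Fin 6)}
    (hA : ∀ i j : Fin 6, i ≠ 0 → i ≠ 5 → j ≠ 0 → j ≠ 5 → act (swap i j) A = A)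
    {g g' : Perm (Fin 6)} (h5 : g 5 = 5) (h5' : g' 5 = 5) (h : g 0 = g' 0) : act g A = act g' A :=
  Ls_unique (o := 5) (s := 0) (fun g h5 h0 => inv_of_swaps_A hA g h5 h0) h5 h5' h

theorem family (A B : E (Fin 6)) (S : Submodule ℚ (E (Fin 6)))
    (hD : ∀ a b, ∀ X ∈ S, D a b X ∈ S)
    (hact : ∀ g : Perm (Fin 6), g 5 = 5 → ∀ X ∈ S, act g X ∈ S) (hAS : A ∈ S) (hBS : B ∈ S)
    (h0 : ∀ a b, a ≠ 5 → b ≠ 5 → ∀ X ∈ S, eps (D a b X) = 0)
    (hA0 : ∀ a b, eps (D a b A) = 0) (hB0 : ∀ a b, eps (D a b B) = 0)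
    (hA : ∀ i j : Fin 6, i ≠ 0 → i ≠ 5 → j ≠ 0 → j ≠ 5 → act (swap i j) A = A)
    (hB : ∀ i j : Fin 6, i ≠ 0 → i ≠ 1 → i ≠ 5 → j ≠ 0 → j ≠ 1 → j ≠ 5 → act (swap i j) B = B)
    (hB' : act (swap 0 1) B = - B)
    (R1 : ∀ Q, form (D 0 5 A) Q = 0)
    (R3 : ∀ Q, form (D 0 1 (act (swap 0 2) A) - D 2 5 B) Q = 0)
    (R5 : ∀ Q, form (D 0 1 (act (swap 0 1) A) - D 1 5 A + D 5 0 B) Q = 0) :
    ∃ phi : E (Fin 6) →ₗ[ℚ] ℚ, phi 1 = 0 ∧
      (∀ y, y ≠ 5 → ∀ Q, phi (Q * x y 5) = form (act (swap 0 y) A) Q) ∧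
      (∀ g : Perm (Fin 6), g 5 = 5 → ∀ Q, phi (act g Q) = phi Q) := by
  have hs : ∀ g : Perm (Fin 6), g 5 = 5 → g 2 = 2 → act g (act (swap 0 2) A) = act (swap 0 2) A := by
    intro g h5 h2
    rw [act_act]
    apply A_unique hA
    · rw [Perm.mul_apply, show (swap (0 : Fin 6) 2) 5 = 5 from by decide, h5]
    · decide
    · rw [Perm.mul_apply, show (swap (0 : Fin 6) 2) 0 = 2 from by decide, h2]
  obtain ⟨phi, e1, e2, _, e4⟩ := ext_functional_orbit' (5 : Fin 6) 2 0 1 (by decide) (by decide)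
    (by decide) (by decide) (by decide) (by decide) (act (swap 0 2) A) B S hD hact h0
    (hact _ (by decide) _ hAS) hBS (fun u v => eps_D_act hA0 _ u v) hB0 hs
    (fun g h5 h0 h1 => inv_of_swaps_B hB g h5 h0 h1) hB'
    (by
      intro Q
      have e : D 2 5 (act (swap 0 2) A) = act (swap (0 : Fin 6) 2) (D 0 5 A) := by
        rw [act_D]; rfl
      rw [e]
      exact form_act_zero R1 _ Q)
    (by
      intro Q
      have := R3 Q
      rw [sub_eq_add_neg, form_add_left, form_neg_left] at this ⊢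
      linarith)
    (by
      intro Q
      have e1 : act (swap (2 : Fin 6) 1) (act (swap 0 2) A) = act (swap 0 1) A := by
        rw [act_act]; apply A_unique hA <;> decide
      have e2 : act (swap (2 : Fin 6) 0) (act (swap 0 2) A) = A := by
        rw [act_act, swap_comm 2 0, swap_mul_self]; simp
      have e3 : D 0 5 B = - D 5 0 B := D_anti 0 5 B
      rw [e1, e2, e3, sub_neg_eq_add]
      exact R5 Q)
  refine ⟨phi, e1, ?_, e4⟩
  intro y hy Q
  rw [e2 y hy]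
  congr 1
  rw [act_act]
  apply A_unique hA
  · rw [Perm.mul_apply, show (swap (0 : Fin 6) 2) 5 = 5 from by decide,
      swap_apply_of_ne_of_ne (by decide) (Ne.symm hy)]
  · rw [swap_apply_of_ne_of_ne (by decide) (Ne.symm hy)]
  · rw [Perm.mul_apply, show (swap (0 : Fin 6) 2) 0 = 2 from by decide, swap_apply_left,
      swap_apply_left]

end Pool.Agent.FKC
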