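import Pool.Agent.FKC.Span

/-! The star elements `mn o Y` and their span. -/

namespace Pool.Agent.FKC

open Pool.Agent.H71.FK

set_option linter.unusedSectionVars false

variable {V : Type} [DecidableEq V]

/-- star elements -/
noncomputable def mn (o : V) : List V → E V
  | [] => 1
  | y :: Y => act (Equiv.swap y o) (mn o Y) * x y o

@[simp] theorem mn_nil (o : V) : mn o ([] : List V) = 1 := rfl
theorem mn_cons (o y : V) (Y : List V) :
    mn o (y :: Y) = act (Equiv.swap y o) (mn o Y) * x y o := rfl

/-- span of the star elements -/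
noncomputable def St (o : V) : Submodule ℚ (E V) :=
  Submodule.span ℚ {m | ∃ Y : List V, (∀ y ∈ Y, y ≠ o) ∧ mn o Y = m}

/-- span of the star elements of positive length -/
noncomputable def St1 (o : V) : Submodule ℚ (E V) :=
  Submodule.span ℚ {m | ∃ Y : List V, Y ≠ [] ∧ (∀ y ∈ Y, y ≠ o) ∧ mn o Y = m}

theorem mn_mem_St {o : V} {Y : List V} (h : ∀ y ∈ Y, y ≠ o) : mn o Y ∈ St o :=
  Submodule.subset_span ⟨Y, h, rfl⟩

theorem mn_mem_St1 {o : V} {Y : List V} (h0 : Y ≠ []) (h : ∀ y ∈ Y, y ≠ o) : mn o Y ∈ St1 o :=
  Submodule.subset_span ⟨Y, h0, h, rfl⟩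

theorem St1_le_St (o : V) : St1 o ≤ St o := by
  apply Submodule.span_le.2
  rintro _ ⟨Y, _, h, rfl⟩
  exact mn_mem_St h

theorem one_mem_St (o : V) : (1 : E V) ∈ St o := by
  have := mn_mem_St (o := o) (Y := []) (by simp)
  simpa using this

/-- the step `X ↦ act (swap y o) X * x y o` -/
theorem step_mem_St1 {o y : V} (hy : y ≠ o) {X : E V} (hX : X ∈ St o) :
    act (Equiv.swap y o) X * x y o ∈ St1 o := by
  unfold St at hX
  induction hX using Submodule.span_induction with
  | mem Z hZ =>
    obtain ⟨Y, h, rfl⟩ := hZ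
    rw [← mn_cons]
    refine mn_mem_St1 (by simp) ?_
    intro z hz
    rcases List.mem_cons.1 hz with rfl | hz
    · exact hy
    · exact h z hz
  | zero => rw [map_zero, zero_mul]; exact Submodule.zero_mem _
  | add A B _ _ hA hB => rw [map_add, add_mul]; exact Submodule.add_mem _ hA hB
  | smul r A _ hA => rw [map_smul, smul_mul_assoc]; exact Submodule.smul_mem _ r hA

/-- the derivation of a star element: deletion of the first letter -/
theorem D_mn_cons (o a b y : V) (Y : List V) :
    D a b (mn o (y :: Y)) = del a b y o • mn o Y +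
      act (Equiv.swap y o) (D (Equiv.swap y o a) (Equiv.swap y o b) (mn o Y)) * x y o := by
  rw [mn_cons, D_mul, D_x, act_D, Equiv.swap_apply_self, Equiv.swap_apply_self, add_comm]
  congr 1
  rcases del_cases a b y o with h | ⟨rfl, rfl⟩ | ⟨rfl, rfl⟩
  · simp [h]
  · rw [act_act, Equiv.swap_mul_self]; simp
  · rw [act_act, Equiv.swap_comm, Equiv.swap_mul_self]; simp

/-- (G1) -/
theorem D_mem_St {o : V} (a b : V) {X : E V} (hX : X ∈ St o) : D a b X ∈ St o := by
  unfold St at hX
  induction hX using Submodule.span_induction with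
  | mem Z hZ =>
    obtain ⟨Y, h, rfl⟩ := hZ
    induction Y generalizing a b with
    | nil => simp
    | cons y Y ih =>
      have hY : ∀ z ∈ Y, z ≠ o := fun z hz => h z (List.mem_cons_of_mem _ hz)
      have hy : y ≠ o := h y (by simp)
      rw [D_mn_cons]
      refine Submodule.add_mem _ (Submodule.smul_mem _ _ (mn_mem_St hY)) ?_
      exact St1_le_St o (step_mem_St1 hy (ih _ _ hY))
  | zero => rw [map_zero]; exact Submodule.zero_mem _
  | add A B _ _ hA hB => rw [map_add]; exact Submodule.add_mem _ hA hB
  | smul r A _ hA => rw [map_smul]; exact Submodule.smul_mem _ r hA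

theorem eps_D_St {o a b : V} (ha : a ≠ o) (hb : b ≠ o) {X : E V} (hX : X ∈ St o) :
    eps (D a b X) = 0 := by
  unfold St at hX
  induction hX using Submodule.span_induction with
  | mem Z hZ =>
    obtain ⟨Y, h, rfl⟩ := hZ
    cases Y with
    | nil => simp
    | cons y Y =>
      rw [D_mn_cons, map_add, map_mul, eps_x, mul_zero, add_zero]
      have : del a b y o = 0 := by
        unfold del
        simp [Ne.symm ha, Ne.symm hb]
      rw [this]; simp
  | zero => simp
  | add A B _ _ hA hB => rw [map_add, map_add, hA, hB, add_zero]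
  | smul r A _ hA => rw [map_smul, map_smul, hA, smul_zero]

/-- (G2) -/
theorem form_St_left {o a b : V} (ha : a ≠ o) (hb : b ≠ o) {X : E V} (hX : X ∈ St o) (Q : E V) :
    form X (x a b * Q) = 0 := by
  rw [form_symm]
  unfold form
  rw [Phi_x_mul]
  exact eps_D_St ha hb (Phi_mem_of_stable (St o) (fun a b X h => D_mem_St a b h) Q hX)

theorem eps_St1 {o : V} {X : E V} (hX : X ∈ St1 o) : eps X = 0 := by
  unfold St1 at hX
  induction hX using Submodule.span_induction with
  | mem Z hZ =>
    obtain ⟨Y, h0, h, rfl⟩ := hZ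
    cases Y with
    | nil => exact absurd rfl h0
    | cons y Y => rw [mn_cons, map_mul, eps_x, mul_zero]
  | zero => simp
  | add A B _ _ hA hB => rw [map_add, hA, hB, add_zero]
  | smul r A _ hA => rw [map_smul, hA, smul_zero]

/-- (G3) -/
theorem hN (o : V) {X : E V} (hX : X ∈ St1 o)
    (h : ∀ s, s ≠ o → ∀ Q, form (D s o X) Q = 0) (Q : E V) : form X Q = 0 :=
  form_zero_of o X (fun _ _ ha hb Q => form_St_left ha hb (St1_le_St o hX) Q) h (eps_St1 hX) Q

/-- (G4) -/
theorem act_mn {o : V} {g : Equiv.Perm V} (hg : g o = o) (Y : List V) :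
    act g (mn o Y) = mn o (Y.map g) := by
  induction Y with
  | nil => simp
  | cons y Y ih =>
    rw [mn_cons, map_mul, act_act, act_x, hg, List.map_cons, mn_cons, ← ih, act_act]
    have : g * Equiv.swap y o = Equiv.swap (g y) o * g := by
      have := Equiv.swap_mul_eq_mul_swap g⁻¹ y o
      have h2 := Equiv.mul_swap_eq_swap_mul g y o
      rw [hg] at h2
      exact h2
    rw [this]

theorem act_mem_St {o : V} {g : Equiv.Perm V} (hg : g o = o) {X : E V} (hX : X ∈ St o) :
    act g X ∈ St o := by
  unfold St at hX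
  induction hX using Submodule.span_induction with
  | mem Z hZ =>
    obtain ⟨Y, h, rfl⟩ := hZ
    rw [act_mn hg]
    refine mn_mem_St ?_
    intro z hz
    obtain ⟨y, hy, rfl⟩ := List.mem_map.1 hz
    intro h'
    exact h y hy (g.injective (h'.trans hg.symm))
  | zero => rw [map_zero]; exact Submodule.zero_mem _
  | add A B _ _ hA hB => rw [map_add]; exact Submodule.add_mem _ hA hB
  | smul r A _ hA => rw [map_smul]; exact Submodule.smul_mem _ r hA

theorem act_mem_St1 {o : V} {g : Equiv.Perm V} (hg : g o = o) {X : E V} (hX : X ∈ St1 o) :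
    act g X ∈ St1 o := by
  unfold St1 at hX
  induction hX using Submodule.span_induction with
  | mem Z hZ =>
    obtain ⟨Y, h0, h, rfl⟩ := hZ
    rw [act_mn hg]
    refine mn_mem_St1 (by simpa using h0) ?_
    intro z hz
    obtain ⟨y, hy, rfl⟩ := List.mem_map.1 hz
    intro h'
    exact h y hy (g.injective (h'.trans hg.symm))
  | zero => rw [map_zero]; exact Submodule.zero_mem _
  | add A B _ _ hA hB => rw [map_add]; exact Submodule.add_mem _ hA hB
  | smul r A _ hA => rw [map_smul]; exact Submodule.smul_mem _ r hA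

/-- a star element is a monomial -/
theorem mn_eq_mon (o : V) (Y : List V) : ∃ l : List (V × V), l.length = Y.length ∧ mon l = mn o Y := by
  induction Y with
  | nil => exact ⟨[], rfl, rfl⟩
  | cons y Y ih =>
    obtain ⟨l, hl, h⟩ := ih
    refine ⟨l.map (fun p => (Equiv.swap y o p.1, Equiv.swap y o p.2)) ++ [(y, o)], by simp [hl], ?_⟩
    rw [mon_append, mn_cons, ← h, act_mon, mon_cons, mon_nil, mul_one]

theorem mn_mem_span (o : V) (Y : List V) :
    mn o Y ∈ Submodule.span ℚ {m : E V | ∃ l : List (V × V), l.length = Y.length ∧ mon l = m} :=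
  Submodule.subset_span (mn_eq_mon o Y)

/-- (G5) -/
theorem phi_act {o : V} {L : V → V → E V}
    (hL : ∀ g : Equiv.Perm V, g o = o → ∀ a b, act g (L a b) = L (g a) (g b))
    {phi : E V →ₗ[ℚ] ℚ} (h1 : phi 1 = 0) (h2 : ∀ a b Q, phi (Q * x a b) = form (L a b) Q)
    {g : Equiv.Perm V} (hg : g o = o) (Q : E V) : phi (act g Q) = phi Q := by
  induction Q using mon_induct with
  | hm l =>
    induction l using List.reverseRecOn with
    | nil => simp
    | append_singleton l p _ =>
      rw [mon_append, mon_cons, mon_nil, mul_one, map_mul, act_x, h2, h2, ← hL g hg, form_act]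
  | hadd p q hp hq => simp only [map_add, hp, hq]
  | hsmul r p hp => simp only [map_smul, hp]

/-- (G6) -/
theorem act_eq_of_swaps [Finite V] (S : V → Prop) (X : E V)
    (h : ∀ i j, S i → S j → act (Equiv.swap i j) X = X) (g : Equiv.Perm V)
    (hg : ∀ v, ¬ S v → g v = v) : act g X = X := by
  classical
  let H : Subgroup (Equiv.Perm V) :=
    { carrier := {g | act g X = X}
      mul_mem' := by
        intro a b ha hb
        show act (a * b) X = X
        rw [← act_act, show act b X = X from hb, show act a X = X from ha]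
      one_mem' := by show act 1 X = X; simp
      inv_mem' := by
        intro a ha
        show act a⁻¹ X = X
        conv_lhs => rw [← show act a X = X from ha]
        rw [act_act]; simp }
  have key : ∀ g' : Equiv.Perm {v // S v}, Equiv.Perm.ofSubtype g' ∈ H := by
    have h1 : (⊤ : Subgroup (Equiv.Perm {v // S v})) ≤ H.comap Equiv.Perm.ofSubtype := by
      rw [← Equiv.Perm.closure_isSwap, Subgroup.closure_le]
      rintro g' ⟨i, j, _, rfl⟩
      show act (Equiv.Perm.ofSubtype (Equiv.swap i j)) X = X
      have : (Equiv.Perm.ofSubtype (Equiv.swap i j) : Equiv.Perm V) = Equiv.swap (i : V) (j : V) := by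
        ext v
        by_cases hv : S v
        · rw [Equiv.Perm.ofSubtype_apply_of_mem _ hv, Equiv.swap_apply_def, Equiv.swap_apply_def]
          simp only [Subtype.ext_iff]
          split_ifs <;> rfl
        · rw [Equiv.Perm.ofSubtype_apply_of_not_mem _ hv, Equiv.swap_apply_of_ne_of_ne]
          · rintro rfl; exact hv i.2
          · rintro rfl; exact hv j.2
      rw [this]
      exact h _ _ i.2 j.2
    intro g'
    exact h1 (Subgroup.mem_top g')
  have hS : ∀ v, S (g v) ↔ S v := by
    intro v
    constructor
    · intro hv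
      by_contra hc
      rw [hg v hc] at hv
      exact hc hv
    · intro hv
      by_contra hc
      have := hg _ hc
      have : g v = v := g.injective this
      rw [this] at hc
      exact hc hv
  have e : Equiv.Perm.ofSubtype (Equiv.Perm.subtypePerm g hS) = g := by
    apply Equiv.Perm.ofSubtype_subtypePerm
    intro v hv
    by_contra hc
    exact hv (hg v hc)
  rw [← e]
  exact key _

end Pool.Agent.FKC
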