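import Pool.Agent.FKC.Del

/-! A linear functional on the Fomin-Kirillov algebra from its partial functionals (right version). -/

namespace Pool.Agent.FKC

open Pool.Agent.H71.FK
open MulOpposite

set_option linter.unusedSectionVars false

variable {V : Type} [DecidableEq V]

/-- the operator of the right multiplication by `x_{ab}` on the extended module -/
noncomputable def rOp (L : V → V → E V) (a b : V) : Module.End ℚ (E V × ℚ) where
  toFun y := (y.1 * x a b, form (L a b) y.1)
  map_add' y z := by simp [add_mul, form_add_right]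
  map_smul' r y := by simp [form_smul_right]

theorem rOp_apply (L : V → V → E V) (a b : V) (y : E V × ℚ) :
    rOp L a b y = (y.1 * x a b, form (L a b) y.1) := rfl

/-- Compatibility conditions. -/
structure RClosed (L : V → V → E V) : Prop where
  anti : ∀ a b, L a b = - L b a
  sq : ∀ a b, a ≠ b → ∀ Q, form (D a b (L a b)) Q = 0
  comm : ∀ a b c d, a ≠ b → a ≠ c → a ≠ d → b ≠ c → b ≠ d → c ≠ d → ∀ Q,
    form (D a b (L c d)) Q = form (D c d (L a b)) Q
  tri : ∀ a b c, a ≠ b → b ≠ c → c ≠ a → ∀ Q,
    form (D a b (L b c) + D b c (L c a) + D c a (L a b)) Q = 0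

theorem form_neg_left (P Q : E V) : form (-P) Q = - form P Q := by
  have := form_smul_left (-1) P Q
  simpa using this

theorem good_right (L : V → V → E V) (h : RClosed L) :
    Good (fun a b => (op (rOp L a b) : (Module.End ℚ (E V × ℚ))ᵐᵒᵖ)) where
  anti a b := by
    rw [← op_neg]
    congr 1
    apply LinearMap.ext
    intro y
    rw [LinearMap.neg_apply, rOp_apply, rOp_apply, x_anti a b, h.anti a b, form_neg_left, mul_neg]
    rfl
  sq a b hab := by
    rw [← op_mul, ← op_zero]
    congr 1
    apply LinearMap.ext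
    intro y
    rw [Module.End.mul_apply, rOp_apply, rOp_apply]
    simp only [mul_assoc, x_sq, mul_zero, form_right_mul_x, h.sq a b hab]
    rfl
  comm a b c d h1 h2 h3 h4 h5 h6 := by
    rw [← op_mul, ← op_mul]
    congr 1
    apply LinearMap.ext
    intro y
    rw [Module.End.mul_apply, Module.End.mul_apply, rOp_apply, rOp_apply, rOp_apply, rOp_apply]
    simp only [mul_assoc, x_comm h1 h2 h3 h4 h5 h6, form_right_mul_x,
      h.comm a b c d h1 h2 h3 h4 h5 h6]
  tri a b c h1 h2 h3 := by
    rw [← op_mul, ← op_mul, ← op_mul, ← op_add, ← op_add, ← op_zero]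
    congr 1
    apply LinearMap.ext
    intro y
    rw [LinearMap.add_apply, LinearMap.add_apply, Module.End.mul_apply, Module.End.mul_apply,
      Module.End.mul_apply]
    simp only [rOp_apply, Prod.mk_add_mk, form_right_mul_x, ← form_add_left, h.tri a b c h1 h2 h3]
    rw [mul_assoc, mul_assoc, mul_assoc, ← mul_add, ← mul_add, x_tri h1 h2 h3, mul_zero]
    rfl

/-- the extended right module -/
noncomputable def rHom (L : V → V → E V) (h : RClosed L) :
    E V →ₐ[ℚ] (Module.End ℚ (E V × ℚ))ᵐᵒᵖ := lift _ (good_right L h)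

theorem rHom_x (L : V → V → E V) (h : RClosed L) (a b : V) :
    unop (rHom L h (x a b)) = rOp L a b := by simp [rHom]

theorem rHom_fst (L : V → V → E V) (h : RClosed L) (Z : E V) (y : E V × ℚ) :
    (unop (rHom L h Z) y).1 = y.1 * Z := by
  induction Z using induct generalizing y with
  | h1 => simp
  | hx a b => rw [rHom_x, rOp_apply]
  | hmul p q hp hq => rw [map_mul, unop_mul, Module.End.mul_apply, hq, hp, mul_assoc]
  | hadd p q hp hq => rw [map_add, unop_add, LinearMap.add_apply, Prod.fst_add, hp, hq, mul_add]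
  | hsmul r p hp => rw [map_smul, unop_smul, LinearMap.smul_apply, Prod.smul_fst, hp, mul_smul_comm]

/-- **The functional with given partial functionals.** -/
theorem ext_functional' (L : V → V → E V) (h : RClosed L) :
    ∃ phi : E V →ₗ[ℚ] ℚ, phi 1 = 0 ∧ ∀ a b Q, phi (Q * x a b) = form (L a b) Q := by
  refine ⟨{ toFun := fun Z => (unop (rHom L h Z) (1, 0)).2, map_add' := ?_, map_smul' := ?_ }, ?_, ?_⟩
  · intro Z Z'; simp
  · intro r Z; simp
  · change (unop (rHom L h 1) (1, 0)).2 = 0
    rw [map_one]; rfl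
  · intro a b Q
    change (unop (rHom L h (Q * x a b)) (1, 0)).2 = _
    rw [map_mul, unop_mul, Module.End.mul_apply, rHom_x, rOp_apply, rHom_fst, one_mul]

theorem ext_functional (L : V → V → E V) (anti : ∀ a b, L a b = - L b a)
    (sq : ∀ a b, a ≠ b → ∀ Q, form (D a b (L a b)) Q = 0)
    (comm : ∀ a b c d, a ≠ b → a ≠ c → a ≠ d → b ≠ c → b ≠ d → c ≠ d → ∀ Q,
      form (D a b (L c d)) Q = form (D c d (L a b)) Q)
    (tri : ∀ a b c, a ≠ b → b ≠ c → c ≠ a → ∀ Q,
      form (D a b (L b c) + D b c (L c a) + D c a (L a b)) Q = 0) :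
    ∃ phi : E V →ₗ[ℚ] ℚ, phi 1 = 0 ∧ ∀ a b Q, phi (Q * x a b) = form (L a b) Q :=
  ext_functional' L ⟨anti, sq, comm, tri⟩

end Pool.Agent.FKC
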