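import Pool.Agent.FKC.CentreE

/-! Spanning of the Fomin-Kirillov algebra by the star words and the right ideal of the letters away
from the centre; the criterion for membership in the radical. -/

namespace Pool.Agent.FKC

open Pool.Agent.H71.FK

set_option linter.unusedSectionVars false

variable {V : Type} [DecidableEq V]

/-- words in the letters `(s, o)` -/
noncomputable def sw (o : V) (l : List V) : E V := mon (l.map fun s => (s, o))

@[simp] theorem sw_nil (o : V) : sw o [] = 1 := rfl

theorem sw_append (o : V) (l l' : List V) : sw o (l ++ l') = sw o l * sw o l' := by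
  unfold sw; rw [List.map_append, mon_append]

theorem sw_single (o s : V) : sw o [s] = x s o := by
  unfold sw; simp

theorem sw_snoc (o : V) (l : List V) (s : V) : sw o (l ++ [s]) = sw o l * x s o := by
  rw [sw_append, sw_single]

/-- the span of the right ideals `x_ab E` (`a, b ≠ o`) and of the star words -/
noncomputable def NN (o : V) : Submodule ℚ (E V) :=
  Submodule.span ℚ ({X | ∃ a b Q, a ≠ o ∧ b ≠ o ∧ X = x a b * Q} ∪ {X | ∃ l : List V, X = sw o l})

theorem NN_left {o a b : V} (ha : a ≠ o) (hb : b ≠ o) (Q : E V) : x a b * Q ∈ NN o :=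
  Submodule.subset_span (Or.inl ⟨a, b, Q, ha, hb, rfl⟩)

theorem NN_sw (o : V) (l : List V) : sw o l ∈ NN o :=
  Submodule.subset_span (Or.inr ⟨l, rfl⟩)

theorem NN_mul_star {o : V} {X : E V} (hX : X ∈ NN o) (s : V) : X * x s o ∈ NN o := by
  unfold NN at hX
  induction hX using Submodule.span_induction with
  | mem Y hY =>
    rcases hY with ⟨a, b, Q, ha, hb, rfl⟩ | ⟨l, rfl⟩
    · rw [mul_assoc]; exact NN_left ha hb _
    · rw [← sw_snoc]; exact NN_sw o _
  | zero => rw [zero_mul]; exact Submodule.zero_mem _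
  | add Y Z _ _ hY hZ => rw [add_mul]; exact Submodule.add_mem _ hY hZ
  | smul r Y _ hY => rw [smul_mul_assoc]; exact Submodule.smul_mem _ r hY

/-- `x_{ao} x_{ab} = x_ab x_bo + x_bo x_oa` -/
theorem x_ao_ab {o a b : V} (ha : a ≠ o) (hb : b ≠ o) (hab : a ≠ b) :
    x a o * x a b = x a b * x b o + x b o * x o a := by
  have h : x o a * x a b + x a b * x b o + x b o * x o a = 0 := x_tri ha.symm hab hb
  have h' : - (x a o * x a b) + (x a b * x b o + x b o * x o a) = 0 := by
    rw [← h, x_anti o a]
    noncomm_ring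
  exact neg_add_eq_zero.1 h'

theorem sw_mul_x (o : V) {a b : V} (ha : a ≠ o) (hb : b ≠ o) (hab : a ≠ b) (l : List V) :
    sw o l * x a b ∈ NN o := by
  induction l using List.reverseRecOn with
  | nil =>
    rw [sw_nil, one_mul, ← mul_one (x a b)]; exact NN_left ha hb _
  | append_singleton l s ih =>
    rw [sw_snoc, mul_assoc]
    by_cases hso : s = o
    · subst hso
      rw [x_self, zero_mul, mul_zero]; exact Submodule.zero_mem _
    by_cases hsa : s = a
    · subst hsa
      rw [x_ao_ab ha hb hab, mul_add, ← mul_assoc, ← mul_assoc]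
      refine Submodule.add_mem _ (NN_mul_star ih b) ?_
      rw [x_anti o s, mul_neg, ← sw_snoc, ← sw_snoc]
      exact Submodule.neg_mem _ (NN_sw o _)
    by_cases hsb : s = b
    · subst hsb
      rw [x_anti a s, mul_neg, x_ao_ab hb ha (Ne.symm hab), mul_neg, mul_add, ← mul_assoc,
        ← mul_assoc]
      refine Submodule.neg_mem _ (Submodule.add_mem _ ?_ ?_)
      · rw [x_anti s a, mul_neg, neg_mul]
        exact Submodule.neg_mem _ (NN_mul_star ih a)
      · rw [x_anti o s, mul_neg, ← sw_snoc, ← sw_snoc]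
        exact Submodule.neg_mem _ (NN_sw o _)
    · rw [x_comm hso hsa hsb (Ne.symm ha) (Ne.symm hb) hab, ← mul_assoc]
      exact NN_mul_star ih s

theorem NN_mul {o : V} {X : E V} (hX : X ∈ NN o) (p : V × V) : X * x p.1 p.2 ∈ NN o := by
  obtain ⟨a, b⟩ := p
  show X * x a b ∈ NN o
  by_cases hb : b = o
  · subst hb; exact NN_mul_star hX a
  by_cases ha : a = o
  · subst ha
    rw [x_anti a b, mul_neg]; exact Submodule.neg_mem _ (NN_mul_star hX b)
  by_cases hab : a = b
  · subst hab
    rw [x_self, mul_zero]; exact Submodule.zero_mem _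
  unfold NN at hX
  induction hX using Submodule.span_induction with
  | mem Y hY =>
    rcases hY with ⟨c, d, Q, hc, hd, rfl⟩ | ⟨l, rfl⟩
    · rw [mul_assoc]; exact NN_left hc hd _
    · exact sw_mul_x o ha hb hab l
  | zero => rw [zero_mul]; exact Submodule.zero_mem _
  | add Y Z _ _ hY hZ => rw [add_mul]; exact Submodule.add_mem _ hY hZ
  | smul r Y _ hY => rw [smul_mul_assoc]; exact Submodule.smul_mem _ r hY

/-- **the spanning lemma** -/
theorem mem_NN (o : V) (Q : E V) : Q ∈ NN o := by
  induction Q using mon_induct with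
  | hm l =>
    induction l using List.reverseRecOn with
    | nil => exact NN_sw o []
    | append_singleton l p ih =>
      rw [mon_append, mon_cons, mon_nil, mul_one]
      exact NN_mul ih p
  | hadd p q hp hq => exact Submodule.add_mem _ hp hq
  | hsmul r p hp => exact Submodule.smul_mem _ r hp

/-- the criterion: `X` is in the radical if it is orthogonal to `x_ab E` (`a, b ≠ o`), of positive
degree, and its derivatives `D s o X` are in the radical -/
theorem form_zero_of (o : V) (X : E V)
    (h1 : ∀ a b, a ≠ o → b ≠ o → ∀ Q, form X (x a b * Q) = 0)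
    (h2 : ∀ s, s ≠ o → ∀ Q, form (D s o X) Q = 0) (h3 : eps X = 0) (Q : E V) : form X Q = 0 := by
  have h := mem_NN o Q
  unfold NN at h
  induction h using Submodule.span_induction with
  | mem Y hY =>
    rcases hY with ⟨a, b, Q, ha, hb, rfl⟩ | ⟨l, rfl⟩
    · exact h1 a b ha hb Q
    · induction l using List.reverseRecOn with
      | nil => rw [sw_nil, form_one_right, h3]
      | append_singleton l s _ =>
        rw [sw_snoc]
        by_cases hs : s = o
        · subst hs
          rw [x_self, mul_zero]; simp [form]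
        · rw [form_right_mul_x]; exact h2 s hs _
  | zero => simp [form]
  | add Y Z _ _ hY hZ => rw [form_add_right, hY, hZ, add_zero]
  | smul r Y _ hY => rw [form_smul_right, hY, mul_zero]

theorem Phi_mem_of_stable (S : Submodule ℚ (E V)) (hD : ∀ a b, ∀ X ∈ S, D a b X ∈ S) (Q : E V) {X : E V}
    (hX : X ∈ S) : Phi Q X ∈ S := by
  induction Q using mon_induct with
  | hm l =>
    induction l with
    | nil => simpa using hX
    | cons p l ih => rw [mon_cons, Phi_x_mul]; exact hD _ _ _ ih
  | hadd p q hp hq => rw [map_add, LinearMap.add_apply]; exact Submodule.add_mem _ hp hq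
  | hsmul r p hp => rw [map_smul, LinearMap.smul_apply]; exact Submodule.smul_mem _ r hp

/-- **hN for a stable space** `S` whose elements have no part of degree one away from the centre -/
theorem hN_of_stable (o : V) (S : Submodule ℚ (E V)) (hD : ∀ a b, ∀ X ∈ S, D a b X ∈ S)
    (h0 : ∀ a b, a ≠ o → b ≠ o → ∀ X ∈ S, eps (D a b X) = 0) :
    ∀ X ∈ S, eps X = 0 → (∀ s, s ≠ o → ∀ Q, form (D s o X) Q = 0) → ∀ Q, form X Q = 0 := by
  intro X hX he h2
  apply form_zero_of o X _ h2 he
  intro a b ha hb Q
  rw [form_symm]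
  unfold form
  rw [Phi_x_mul]
  exact h0 a b ha hb _ (Phi_mem_of_stable S hD Q hX)

/-- the part of positive degree -/
noncomputable def posPart (S : Submodule ℚ (E V)) : Submodule ℚ (E V) where
  carrier := {X | X ∈ S ∧ eps X = 0}
  add_mem' := by
    rintro X Y ⟨h1, h2⟩ ⟨h3, h4⟩
    exact ⟨Submodule.add_mem _ h1 h3, by rw [map_add, h2, h4, add_zero]⟩
  zero_mem' := ⟨Submodule.zero_mem _, map_zero _⟩
  smul_mem' := by
    rintro r X ⟨h1, h2⟩
    exact ⟨Submodule.smul_mem _ r h1, by rw [map_smul, h2, smul_zero]⟩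

/-- `ext_functional_centre` for a stable space -/
theorem ext_functional_star (o : V) (S : Submodule ℚ (E V)) (hD : ∀ a b, ∀ X ∈ S, D a b X ∈ S)
    (h0 : ∀ a b, a ≠ o → b ≠ o → ∀ X ∈ S, eps (D a b X) = 0)
    (L : V → V → E V) (hL : ∀ a b, L a b ∈ S) (hL0 : ∀ a b c e, eps (D a b (L c e)) = 0)
    (anti : ∀ a b, L a b = - L b a)
    (sq : ∀ s, s ≠ o → ∀ Q, form (D s o (L s o)) Q = 0)
    (comm : ∀ s a b, s ≠ o → a ≠ o → b ≠ o → s ≠ a → s ≠ b → a ≠ b → ∀ Q,
      form (D s o (L a b)) Q = form (D a b (L s o)) Q)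
    (tri : ∀ a b, a ≠ b → a ≠ o → b ≠ o → ∀ Q,
      form (D a b (L b o) + D b o (L o a) + D o a (L a b)) Q = 0) :
    ∃ phi : E V →ₗ[ℚ] ℚ, phi 1 = 0 ∧ ∀ a b Q, phi (Q * x a b) = form (L a b) Q :=
  ext_functional_centre o (posPart S)
    (fun X hX h => hN_of_stable o S hD h0 X hX.1 hX.2 h) L
    (fun a b c e => ⟨hD a b _ (hL c e), hL0 a b c e⟩) anti sq comm tri

end Pool.Agent.FKC
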