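import Pool.Agent.FKC.Right

/-! Passing from a vertex set to a larger one. -/

namespace Pool.Agent.FKC

open Pool.Agent.H71.FK

set_option linter.unusedSectionVars false

variable {V W : Type} [DecidableEq V] [DecidableEq W]

theorem good_emb (e : V ↪ W) : Good (fun a b : V => (x (e a) (e b) : E W)) where
  anti a b := x_anti _ _
  sq a b _ := x_sq _ _
  comm a b c d h1 h2 h3 h4 h5 h6 := x_comm (by simpa using h1) (by simpa using h2)
    (by simpa using h3) (by simpa using h4) (by simpa using h5) (by simpa using h6)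
  tri a b c h1 h2 h3 := x_tri (by simpa using h1) (by simpa using h2) (by simpa using h3)

/-- the map `x_{ab} ↦ x_{e(a) e(b)}` -/
noncomputable def emb (e : V ↪ W) : E V →ₐ[ℚ] E W := lift _ (good_emb e)

@[simp] theorem emb_x (e : V ↪ W) (a b : V) : emb e (x a b) = x (e a) (e b) := by simp [emb]

open Classical in
/-- the retraction on generators -/
noncomputable def rf (e : V ↪ W) (c d : W) : E V :=
  if h : (∃ a, e a = c) ∧ (∃ b, e b = d) then x h.1.choose h.2.choose else 0

theorem rf_emb (e : V ↪ W) (a b : V) : rf e (e a) (e b) = x a b := by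
  have h : (∃ a', e a' = e a) ∧ (∃ b', e b' = e b) := ⟨⟨a, rfl⟩, ⟨b, rfl⟩⟩
  unfold rf
  rw [dif_pos h]
  have h1 : h.1.choose = a := e.injective h.1.choose_spec
  have h2 : h.2.choose = b := e.injective h.2.choose_spec
  rw [h1, h2]

theorem rf_left (e : V ↪ W) {c : W} (hc : ¬ ∃ a, e a = c) (d : W) : rf e c d = 0 := by
  unfold rf
  rw [dif_neg]
  exact fun h => hc h.1

theorem rf_right (e : V ↪ W) (c : W) {d : W} (hd : ¬ ∃ b, e b = d) : rf e c d = 0 := by
  unfold rf
  rw [dif_neg]
  exact fun h => hd h.2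

theorem good_rf (e : V ↪ W) : Good (rf e) where
  anti c d := by
    by_cases hc : ∃ a, e a = c
    · by_cases hd : ∃ b, e b = d
      · obtain ⟨a, rfl⟩ := hc
        obtain ⟨b, rfl⟩ := hd
        rw [rf_emb, rf_emb, x_anti]
      · rw [rf_right e c hd, rf_left e hd]; simp
    · rw [rf_left e hc, rf_right e d hc]; simp
  sq c d _ := by
    by_cases hc : ∃ a, e a = c
    · by_cases hd : ∃ b, e b = d
      · obtain ⟨a, rfl⟩ := hc
        obtain ⟨b, rfl⟩ := hd
        rw [rf_emb, x_sq]
      · rw [rf_right e c hd]; simp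
    · rw [rf_left e hc]; simp
  comm a b c d h1 h2 h3 h4 h5 h6 := by
    by_cases ha : ∃ a', e a' = a
    · by_cases hb : ∃ b', e b' = b
      · by_cases hc : ∃ c', e c' = c
        · by_cases hd : ∃ d', e d' = d
          · obtain ⟨a, rfl⟩ := ha
            obtain ⟨b, rfl⟩ := hb
            obtain ⟨c, rfl⟩ := hc
            obtain ⟨d, rfl⟩ := hd
            rw [rf_emb, rf_emb]
            exact x_comm (fun h => h1 (by rw [h])) (fun h => h2 (by rw [h]))
              (fun h => h3 (by rw [h])) (fun h => h4 (by rw [h])) (fun h => h5 (by rw [h]))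
              (fun h => h6 (by rw [h]))
          · rw [rf_right e c hd]; simp
        · rw [rf_left e hc]; simp
      · rw [rf_right e a hb]; simp
    · rw [rf_left e ha]; simp
  tri a b c h1 h2 h3 := by
    by_cases ha : ∃ a', e a' = a
    · by_cases hb : ∃ b', e b' = b
      · by_cases hc : ∃ c', e c' = c
        · obtain ⟨a, rfl⟩ := ha
          obtain ⟨b, rfl⟩ := hb
          obtain ⟨c, rfl⟩ := hc
          rw [rf_emb, rf_emb, rf_emb]
          exact x_tri (fun h => h1 (by rw [h])) (fun h => h2 (by rw [h])) (fun h => h3 (by rw [h]))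
        · rw [rf_right e b hc, rf_left e hc]; simp
      · rw [rf_right e a hb, rf_left e hb]; simp
    · rw [rf_left e ha, rf_right e c ha]; simp

/-- the retraction -/
noncomputable def ret (e : V ↪ W) : E W →ₐ[ℚ] E V := lift _ (good_rf e)

theorem ret_emb (e : V ↪ W) (P : E V) : ret e (emb e P) = P := by
  have : (ret e).comp (emb e) = AlgHom.id ℚ (E V) :=
    hom_ext fun a b => by simp [ret, rf_emb]
  exact DFunLike.congr_fun this P

theorem emb_injective (e : V ↪ W) : Function.Injective (emb e) :=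
  Function.LeftInverse.injective (ret_emb e)

theorem emb_mon (e : V ↪ W) (l : List (V × V)) :
    emb e (mon l) = mon (l.map fun p => (e p.1, e p.2)) := by
  induction l with
  | nil => simp
  | cons p l ih => simp [ih]

theorem eps_emb (e : V ↪ W) (P : E V) : eps (emb e P) = eps P := by
  have : (eps (V := W)).comp (emb e) = eps := hom_ext fun a b => by simp
  exact DFunLike.congr_fun this P

theorem swap_emb (e : V ↪ W) (a b c : V) : Equiv.swap (e a) (e b) (e c) = e (Equiv.swap a b c) := by
  rw [Equiv.swap_apply_def, Equiv.swap_apply_def]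
  simp only [e.injective.eq_iff]
  split_ifs <;> rfl

theorem act_swap_emb (e : V ↪ W) (a b : V) (P : E V) :
    act (Equiv.swap (e a) (e b)) (emb e P) = emb e (act (Equiv.swap a b) P) := by
  have : (act (Equiv.swap (e a) (e b))).comp (emb e) = (emb e).comp (act (Equiv.swap a b)) :=
    hom_ext fun c d => by simp [swap_emb]
  exact DFunLike.congr_fun this P

theorem D_emb (e : V ↪ W) (a b : V) (P : E V) : D (e a) (e b) (emb e P) = emb e (D a b P) := by
  induction P using induct with
  | h1 => simp
  | hx c d =>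
    rw [emb_x, D_x, D_x, map_smul, map_one]
    congr 1
    simp [del]
  | hmul p q hp hq =>
    rw [map_mul, D_mul, D_mul, map_add, map_mul, map_mul, hp, hq, act_swap_emb]
  | hadd p q hp hq => simp only [map_add, hp, hq]
  | hsmul r p hp => simp only [map_smul, hp]

theorem D_emb_left (e : V ↪ W) {c : W} (hc : ¬ ∃ a, e a = c) (d : W) (P : E V) :
    D c d (emb e P) = 0 := by
  induction P using induct with
  | h1 => simp
  | hx a b =>
    rw [emb_x, D_x]
    have h1 : ¬ (e a = c ∧ e b = d) := fun h => hc ⟨a, h.1⟩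
    have h2 : ¬ (e a = d ∧ e b = c) := fun h => hc ⟨b, h.2⟩
    unfold del
    rw [if_neg h1, if_neg h2]; simp
  | hmul p q hp hq => rw [map_mul, D_mul, hp, hq]; simp
  | hadd p q hp hq => simp only [map_add, hp, hq, add_zero]
  | hsmul r p hp => simp only [map_smul, hp, smul_zero]

theorem D_emb_right (e : V ↪ W) (c : W) {d : W} (hd : ¬ ∃ a, e a = d) (P : E V) :
    D c d (emb e P) = 0 := by
  rw [D_anti, D_emb_left e hd, neg_zero]

theorem form_emb (e : V ↪ W) {P : E V} (hP : ∀ Q, form P Q = 0) (Q : E W) :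
    form (emb e P) Q = 0 := by
  have key : ∀ l : List (W × W), ∃ P' : E V, Phi (mon l) (emb e P) = emb e P' ∧
      (P' = 0 ∨ ∃ l' : List (V × V), P' = Phi (mon l') P) := by
    intro l
    induction l with
    | nil => exact ⟨P, by simp, Or.inr ⟨[], by simp⟩⟩
    | cons p l ih =>
      obtain ⟨P', h1, h2⟩ := ih
      rw [mon_cons, Phi_x_mul, h1]
      by_cases hc : ∃ a, e a = p.1
      · by_cases hd : ∃ b, e b = p.2
        · obtain ⟨a, ha⟩ := hc
          obtain ⟨b, hb⟩ := hd
          refine ⟨D a b P', by rw [← ha, ← hb, D_emb], ?_⟩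
          rcases h2 with rfl | ⟨l', rfl⟩
          · left; simp
          · right; exact ⟨(a, b) :: l', by rw [mon_cons, Phi_x_mul]⟩
        · exact ⟨0, by rw [D_emb_right e p.1 hd, map_zero], Or.inl rfl⟩
      · exact ⟨0, by rw [D_emb_left e hc, map_zero], Or.inl rfl⟩
  rw [form_symm]
  induction Q using mon_induct with
  | hm l =>
    obtain ⟨P', h1, h2⟩ := key l
    unfold form
    rw [h1, eps_emb]
    rcases h2 with rfl | ⟨l', rfl⟩
    · simp
    · have := hP (mon l')
      rw [form_symm] at this
      exact this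
  | hadd p q hp hq => rw [form_add_left, hp, hq, add_zero]
  | hsmul r p hp => rw [form_smul_left, hp, mul_zero]

/-- **From a vertex set to a larger one.** -/
theorem up_gen (e : V ↪ W) (d : ℕ)
    (h : ∃ P : E V, P ≠ 0 ∧ P ∈ Submodule.span ℚ {m : E V | ∃ l : List (V × V), l.length = d ∧ mon l = m} ∧
      ∀ Q, form P Q = 0) :
    ∃ P : E W, P ≠ 0 ∧ P ∈ Submodule.span ℚ {m : E W | ∃ l : List (W × W), l.length = d ∧ mon l = m} ∧
      ∀ Q, form P Q = 0 := by
  obtain ⟨P, h0, hs, hr⟩ := h
  refine ⟨emb e P, ?_, ?_, fun Q => form_emb e hr Q⟩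
  · intro h
    exact h0 (emb_injective e (by rw [h, map_zero]))
  · clear h0 hr
    induction hs using Submodule.span_induction with
    | mem p hp =>
      obtain ⟨l, hl, rfl⟩ := hp
      rw [emb_mon]
      exact Submodule.subset_span ⟨_, by simpa using hl, rfl⟩
    | zero => simp
    | add p q _ _ hp hq => rw [map_add]; exact Submodule.add_mem _ hp hq
    | smul r p _ hp => rw [map_smul]; exact Submodule.smul_mem _ _ hp

/-- **From `n = 6` to all `n ≥ 6`.** -/
theorem up (h : ∃ P : E (Fin 6), P ≠ 0 ∧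
      P ∈ Submodule.span ℚ {m : E (Fin 6) | ∃ l : List (Fin 6 × Fin 6), l.length = 14 ∧ mon l = m} ∧
      ∀ Q, form P Q = 0) (n : ℕ) (hn : 6 ≤ n) :
    ∃ P : E (Fin n), P ≠ 0 ∧
      P ∈ Submodule.span ℚ {m : E (Fin n) | ∃ l : List (Fin n × Fin n), l.length = 14 ∧ mon l = m} ∧
      ∀ Q, form P Q = 0 :=
  up_gen (Fin.castLEEmb hn) 14 h

end Pool.Agent.FKC
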